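import Pool.Agent.Run7.h969.GD.Tgt4

/-!
Piece P1: solutions which become small are targets (helper969).
-/

set_option autoImplicit false

open MeasureTheory Set Filter Topology
open scoped ContDiff

namespace Pool.Agent.Run7.h969.GD

open H459R3.NS Pool.Agent.Run7.h782.GD Pool.Agent.Run7.h782.GS

variable {ν : ℝ}

/-- The sum norm does not increase while the critical norm is small. -/
theorem decayL {U : ℝ → Cf} (hsol : LSol ν U) (hν : 0 < ν) {s t : ℝ} (hs : 0 ≤ s) (hst : s ≤ t)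
    (hcrit : ∀ r ∈ Icc s t, ∀ A : Finset K3, ∑ k ∈ A, ‖U r k‖ / len k ≤ 1 / 2 * ν) :
    nX U t ≤ nX U s := by
  obtain ⟨D, hsD, hD0, hDb⟩ := lsol_maj hsol 2 t
  have hDsq : ∀ τ ∈ Icc 0 t, ∀ k, h782.GD.sq k * ‖U τ k‖ ≤ D k := by
    intro τ hτ k
    have h1 := hDb τ hτ k
    have h2 : h782.GD.sq k ≤ (1 + len k) ^ 2 := by
      rw [← len_sq]
      have := len_nonneg k
      nlinarith
    exact (mul_le_mul_of_nonneg_right h2 (norm_nonneg _)).trans h1
  have hL1 : ∀ τ, 0 ≤ τ → L1 (U τ) := fun τ hτ => (sum3 hsol hτ).2.1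
  have hL2 : ∀ τ, 0 ≤ τ → Summable fun k => len k * ‖U τ k‖ := fun τ hτ => (sum3 hsol hτ).2.2
  have hL3 : ∀ τ ∈ Icc 0 t, Summable fun k => h782.GD.sq k * ‖U τ k‖ := fun τ hτ =>
    Summable.of_nonneg_of_le (fun k => mul_nonneg (sq_nonneg' k) (norm_nonneg _))
      (hDsq τ hτ) hsD
  have htail : ∀ τ ∈ Icc 0 t, ∀ A : Finset K3,
      ∑' k, h782.GD.sq k * ‖U τ k‖ ≤ ∑ k ∈ A, h782.GD.sq k * ‖U τ k‖
        + (∑' k, D k - ∑ k ∈ A, D k) := by
    intro τ hτ A
    have h1 : Summable fun k => D k - h782.GD.sq k * ‖U τ k‖ := hsD.sub (hL3 τ hτ)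
    have h2 := h1.sum_le_tsum A fun k _ => sub_nonneg.2 (hDsq τ hτ k)
    rw [hsD.tsum_sub (hL3 τ hτ), Finset.sum_sub_distrib] at h2
    linarith
  -- finite sums
  have hmain : ∀ A : Finset K3, ∑ k ∈ A, ‖U t k‖
      ≤ ∑ k ∈ A, ‖U s k‖ + 4 * Real.pi ^ 2 * ν * (∑' k, D k - ∑ k ∈ A, D k) * (t - s) := by
    intro A
    obtain ⟨e, he⟩ : ∃ e, e = 4 * Real.pi ^ 2 * ν * (∑' k, D k - ∑ k ∈ A, D k) := ⟨_, rfl⟩
    rw [← he]
    have hcont : ∀ k, ContinuousOn (fun τ => U τ k) (Icc s t) := fun k =>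
      (lsol_cont hsol k).mono fun z hz => hs.trans hz.1
    have := image_le_of_liminf_slope_right_le_deriv_boundary
      (f := fun τ => ∑ k ∈ A, ‖U τ k‖) (a := s) (b := t)
      (B := fun τ => ∑ k ∈ A, ‖U s k‖ + e * (τ - s)) (B' := fun _ => e)
      (continuousOn_finsetSum _ fun k _ => (hcont k).norm) (by simp)
      (by fun_prop) (fun x _ => by
        have h1 : HasDerivAt (fun τ : ℝ => ∑ k ∈ A, ‖U s k‖ + e * (τ - s)) (e * 1) x :=
          (((hasDerivAt_id x).sub_const s).const_mul e).const_add _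
        rw [mul_one] at h1
        exact h1.hasDerivWithinAt) ?_ (right_mem_Icc.2 hst)
    · exact this
    · intro x hx r hr
      have hx0 : 0 ≤ x := hs.trans hx.1
      have hxI : x ∈ Icc 0 t := ⟨hx0, hx.2.le⟩
      -- the sum of the derivatives
      have h1 : ∑ k ∈ A, (‖nl (U x) (U x) k‖ - lam ν k * ‖U x k‖) ≤ e := by
        have h2 := nl_le_diss (hL1 x hx0) (hL2 x hx0) (hL3 x hxI) (hsol.div x hx0)
          (hsol.zero x hx0) (hcrit x ⟨hx.1, hx.2.le⟩) A
        have h3 := htail x hxI A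
        have h4 : 24 * Real.pi * (1 / 2 * ν * ∑' k, h782.GD.sq k * ‖U x k‖)
            ≤ 4 * Real.pi ^ 2 * ν * ∑' k, h782.GD.sq k * ‖U x k‖ := by
          have h5 : 0 ≤ ∑' k, h782.GD.sq k * ‖U x k‖ :=
            tsum_nonneg fun k => mul_nonneg (sq_nonneg' k) (norm_nonneg _)
          have h6 : (12 : ℝ) * Real.pi ≤ 4 * Real.pi ^ 2 := by
            have := Real.pi_gt_three
            nlinarith
          have h7 := mul_le_mul_of_nonneg_right h6 (mul_nonneg hν.le h5)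
          linarith
        have h5 : 4 * Real.pi ^ 2 * ν * ∑' k, h782.GD.sq k * ‖U x k‖
            ≤ 4 * Real.pi ^ 2 * ν * (∑ k ∈ A, h782.GD.sq k * ‖U x k‖
              + (∑' k, D k - ∑ k ∈ A, D k)) :=
          mul_le_mul_of_nonneg_left h3 (by positivity)
        have h6 : ∑ k ∈ A, lam ν k * ‖U x k‖
            = 4 * Real.pi ^ 2 * ν * ∑ k ∈ A, h782.GD.sq k * ‖U x k‖ := by
          rw [Finset.mul_sum]
          exact Finset.sum_congr rfl fun k _ => by rw [lam]; ring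
        rw [Finset.sum_sub_distrib, h6, he]
        linarith
      obtain ⟨ε, hε⟩ : ∃ ε, ε = (r - e) / (2 * (A.card + 1)) := ⟨_, rfl⟩
      have hε0 : 0 < ε := by
        rw [hε]
        exact div_pos (by linarith) (by positivity)
      have h2 : ∀ᶠ z in 𝓝[>] x, ∀ k ∈ A, ‖U z k‖ - ‖U x k‖
          ≤ (z - x) * (‖nl (U x) (U x) k‖ - lam ν k * ‖U x k‖ + ε) := by
        rw [Filter.eventually_all_finset]
        intro k _
        have hlk : 0 ≤ lam ν k := by
          rw [lam]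
          exact mul_nonneg (by positivity) (sq_nonneg' k)
        exact norm_growth (f := fun τ => U τ k) hlk hx0 hε0 (hsol.der x hx0 k)
      apply Eventually.frequently
      filter_upwards [h2, self_mem_nhdsWithin] with z h3 h4
      have hz : 0 < z - x := sub_pos.2 h4
      rw [slope_def_field, div_lt_iff₀ hz, ← Finset.sum_sub_distrib]
      have h5 : ∑ k ∈ A, (‖U z k‖ - ‖U x k‖)
          ≤ ∑ k ∈ A, (z - x) * (‖nl (U x) (U x) k‖ - lam ν k * ‖U x k‖ + ε) :=
        Finset.sum_le_sum h3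
      have h6 : ∑ k ∈ A, (z - x) * (‖nl (U x) (U x) k‖ - lam ν k * ‖U x k‖ + ε)
          = (z - x) * (∑ k ∈ A, (‖nl (U x) (U x) k‖ - lam ν k * ‖U x k‖) + A.card * ε) := by
        rw [← Finset.mul_sum, Finset.sum_add_distrib, Finset.sum_const, nsmul_eq_mul]
      have h7 : (A.card : ℝ) * ε < r - e := by
        have h8 : ε * (2 * (A.card + 1)) = r - e := by
          rw [hε]
          field_simp
        have h9 : (0 : ℝ) ≤ A.card := Nat.cast_nonneg _
        nlinarith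
      calc ∑ k ∈ A, (‖U z k‖ - ‖U x k‖) ≤ (z - x)
            * (∑ k ∈ A, (‖nl (U x) (U x) k‖ - lam ν k * ‖U x k‖) + A.card * ε) := by
            rw [← h6]
            exact h5
        _ ≤ (z - x) * (e + A.card * ε) :=
            mul_le_mul_of_nonneg_left (by linarith) hz.le
        _ < (z - x) * r := mul_lt_mul_of_pos_left (by linarith) hz
        _ = r * (z - x) := mul_comm _ _
  -- the limit
  have hfin : ∀ A₀ : Finset K3, ∑ k ∈ A₀, ‖U t k‖ ≤ ∑' k, ‖U s k‖ := by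
    intro A₀
    have hlim : Tendsto (fun A : Finset K3 => ∑' k, ‖U s k‖
        + 4 * Real.pi ^ 2 * ν * (∑' k, D k - ∑ k ∈ A, D k) * (t - s)) atTop
        (𝓝 (∑' k, ‖U s k‖ + 4 * Real.pi ^ 2 * ν * (∑' k, D k - ∑' k, D k) * (t - s))) := by
      refine Tendsto.const_add _ (Tendsto.mul_const _ (Tendsto.const_mul _ ?_))
      exact (hsD.hasSum).const_sub _
    rw [sub_self, mul_zero, zero_mul, add_zero] at hlim
    refine ge_of_tendsto hlim ?_
    filter_upwards [eventually_ge_atTop A₀] with A hA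
    have h1 : ∑ k ∈ A₀, ‖U t k‖ ≤ ∑ k ∈ A, ‖U t k‖ :=
      Finset.sum_le_sum_of_subset_of_nonneg hA fun k _ _ => norm_nonneg _
    have h2 := hmain A
    have h3 : ∑ k ∈ A, ‖U s k‖ ≤ ∑' k, ‖U s k‖ :=
      Summable.sum_le_tsum A (fun k _ => norm_nonneg _) (hL1 s hs)
    linarith
  exact Summable.tsum_le_of_sum_le (hL1 t (hs.trans hst)) hfin

lemma nY_le_nZ {U : ℝ → Cf} (h : LSol ν U) {t : ℝ} (ht : 0 ≤ t) : nY U t ≤ nZ U t := by
  obtain ⟨h1, -, h3⟩ := sum3 h ht
  refine Summable.tsum_le_tsum (fun k => ?_) h1 h3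
  by_cases hk : k = 0
  · subst hk
    rw [len_zero, div_zero, zero_mul]
  · have h4 := one_le_len hk
    have h5 := norm_nonneg (U t k)
    calc ‖U t k‖ / len k ≤ ‖U t k‖ := div_le_self h5 h4
      _ ≤ len k * ‖U t k‖ := le_mul_of_one_le_left h5 h4

/-- **Piece P1.** -/
theorem stmInt : StmInt := by
  refine ⟨1 / 8, by norm_num, ?_⟩
  rintro ν hν U h ⟨s, hs, hsm⟩
  have hπ := Real.pi_gt_three
  obtain ⟨c, hc⟩ : ∃ c, c = Real.pi * ν / 12 := ⟨_, rfl⟩
  have hc1 : 24 * Real.pi * c ≤ 2 * Real.pi ^ 2 * ν := by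
    rw [hc]
    apply le_of_eq
    ring
  have hYs : ∀ t, s ≤ t → nY U t ≤ 1 / 8 * ν := fun t ht =>
    Summable.tsum_le_of_sum_le (sum3 h (hs.trans ht)).1 (hsm t ht)
  have hc2 : 1 / 8 * ν < c := by
    rw [hc]
    nlinarith
  have hstay : ∀ r, s ≤ r → ∀ t, r ≤ t → nY U t ≤ nY U r
      ∧ 2 * Real.pi ^ 2 * ν * ∫ q in r..t, nZ U q ≤ nY U r := fun r hr =>
    stays_small h hν (hs.trans hr) hc1 ((hYs r hr).trans_lt hc2)
  have hZi : ∀ a b, 0 ≤ a → a ≤ b → IntervalIntegrable (nZ U) volume a b := by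
    intro a b ha hab
    refine ContinuousOn.intervalIntegrable ?_
    rw [uIcc_of_le hab]
    exact (nZ_cont h).mono fun r hr => ha.trans hr.1
  have hZT : ∀ T, 0 ≤ T → ∫ q in (0 : ℝ)..T, nZ U q
      ≤ (∫ q in (0 : ℝ)..s, nZ U q) + 1 / 8 * ν / (2 * Real.pi ^ 2 * ν) := by
    intro T hT
    have h0 : 0 ≤ 1 / 8 * ν / (2 * Real.pi ^ 2 * ν) := by positivity
    rcases le_total T s with hTs | hTs
    · have h1 : ∫ q in (0 : ℝ)..T, nZ U q ≤ ∫ q in (0 : ℝ)..s, nZ U q :=
        intervalIntegral.integral_mono_interval le_rfl hT hTs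
          (Eventually.of_forall fun r => nZ_nonneg U r) (hZi 0 s le_rfl hs)
      linarith
    · have h1 := intervalIntegral.integral_add_adjacent_intervals (hZi 0 s le_rfl hs)
        (hZi s T hs hTs)
      have h2 := (hstay s le_rfl T hTs).2
      have h3 := hYs s le_rfl
      have h4 : ∫ q in s..T, nZ U q ≤ 1 / 8 * ν / (2 * Real.pi ^ 2 * ν) := by
        rw [le_div_iff₀ (by positivity)]
        linarith
      linarith
  refine { toLSol := h, bd := ?_, int := ?_, ev := ?_ }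
  · obtain ⟨M, hM, hM0, hMb⟩ := lsol_maj2 h s
    refine ⟨∑' k, M k, fun t ht A => ?_⟩
    rcases le_total t s with hts | hts
    · calc ∑ k ∈ A, ‖U t k‖ ≤ ∑ k ∈ A, M k :=
            Finset.sum_le_sum fun k _ => (hMb t ⟨ht, hts⟩ k).2.1
        _ ≤ ∑' k, M k := hM.sum_le_tsum A fun k _ => hM0 k
    · have h1 := decayL h hν hs hts fun r hr A => (hsm r hr.1 A).trans (by linarith)
      have h2 : ∑ k ∈ A, ‖U t k‖ ≤ nX U t :=
        Summable.sum_le_tsum A (fun k _ => norm_nonneg _) (sum3 h ht).2.1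
      have h3 : nX U s ≤ ∑' k, M k :=
        Summable.tsum_le_tsum (fun k => (hMb s ⟨hs, le_rfl⟩ k).2.1) (sum3 h hs).2.1 hM
      linarith
  · refine ⟨(∫ q in (0 : ℝ)..s, nZ U q) + 1 / 8 * ν / (2 * Real.pi ^ 2 * ν), fun T hT A => ?_⟩
    refine le_trans ?_ (hZT T hT)
    refine intervalIntegral.integral_mono_on hT ?_ (hZi 0 T le_rfl hT) fun r hr => ?_
    · refine ContinuousOn.intervalIntegrable ?_
      rw [uIcc_of_le hT]
      exact continuousOn_finsetSum _ fun k _ => continuousOn_const.mul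
        ((lsol_cont h k).mono Icc_subset_Ici_self).norm
    · exact (sum3 h hr.1).2.2.sum_le_tsum A fun k _ => mul_nonneg (len_nonneg k) (norm_nonneg _)
  · intro ε hε
    have hex : ∃ s₁, s ≤ s₁ ∧ nY U s₁ < ε := by
      by_contra hcn
      push Not at hcn
      obtain ⟨T, hT⟩ : ∃ T, T = s + (1 / 8 * ν / (2 * Real.pi ^ 2 * ν) / ε + 1) := ⟨_, rfl⟩
      have hsT : s ≤ T := by
        rw [hT]
        have : 0 ≤ 1 / 8 * ν / (2 * Real.pi ^ 2 * ν) / ε := by positivity
        linarith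
      have h1 : ∫ _q in s..T, ε ≤ ∫ q in s..T, nZ U q :=
        intervalIntegral.integral_mono_on hsT intervalIntegrable_const (hZi s T hs hsT)
          fun r hr => (hcn r hr.1).trans (nY_le_nZ h (hs.trans hr.1))
      rw [intervalIntegral.integral_const, smul_eq_mul] at h1
      have h2 := (hstay s le_rfl T hsT).2
      have h3 := hYs s le_rfl
      have h4 : ∫ q in s..T, nZ U q ≤ 1 / 8 * ν / (2 * Real.pi ^ 2 * ν) := by
        rw [le_div_iff₀ (by positivity)]
        linarith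
      have h5 : (T - s) * ε = 1 / 8 * ν / (2 * Real.pi ^ 2 * ν) + ε := by
        rw [hT]
        field_simp
        ring
      linarith
    obtain ⟨s₁, hs₁, hs₂⟩ := hex
    refine ⟨s₁, hs.trans hs₁, fun t ht A => ?_⟩
    have h1 := (hstay s₁ hs₁ t ht).1
    have h2 := (sum3 h ((hs.trans hs₁).trans ht)).1.sum_le_tsum A fun k _ =>
      div_nonneg (norm_nonneg _) (len_nonneg k)
    exact h2.trans (h1.trans hs₂.le)

/-- **Piece F1.** -/
theorem stmTg' : StmTg := stmTg stmInt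

end Pool.Agent.Run7.h969.GD
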