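import Pool.Agent.Run7.h969.GD.Tgt1

/-!
Piece F1: the Fourier coefficients of a smooth periodic solution (helper969). The equation.
-/

set_option autoImplicit false

open MeasureTheory Set Filter Topology
open scoped ContDiff

namespace Pool.Agent.Run7.h969.GD

open H459R3.NS Pool.Agent.Run7.h782.GD

/-- Coefficients of global smooth solutions with mean zero. -/
structure TSol (ν : ℝ) (b : ℝ → Cf) : Prop where
  zero : ∀ t, 0 ≤ t → b t 0 = 0
  herm : ∀ t, 0 ≤ t → Herm (b t)
  div : ∀ t, 0 ≤ t → Dv (b t)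
  der : ∀ t, 0 ≤ t → ∀ k, HasDerivWithinAt (fun s => b s k)
    (-(lam ν k : ℂ) • b t k - nl (b t) (b t) k) (Ici 0) t
  maj : ∀ (n : ℕ) (T : ℝ), ∃ A : K3 → ℝ, Summable A ∧ (∀ k, 0 ≤ A k) ∧
    ∀ t ∈ Icc 0 T, ∀ k, (1 + len k) ^ n * ‖b t k‖ ≤ A k

variable {ν : ℝ} {U : ℝ → V → V} {P : ℝ → V → ℝ}

lemma one_le_wt (k : K3) (n : ℕ) : 1 ≤ (1 + len k) ^ n :=
  one_le_pow₀ (by linarith [len_nonneg k])

lemma sw_nonneg (k : K3) : 0 ≤ sw k := by unfold sw; positivity

/-- The summable majorants. -/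
theorem maj_vf (h : ∀ T, IsSol ν T U P) (n : ℕ) (T : ℝ) :
    ∃ A : K3 → ℝ, Summable A ∧ (∀ k, 0 ≤ A k) ∧
      ∀ t ∈ Icc 0 T, ∀ k, (1 + len k) ^ n * ‖vf (U t) k‖ ≤ A k := by
  choose C hC0 hC using fun i : Fin 3 => maj_fr (f := fun t y => U t y i) (lt_add_one T)
    ((h (T + 1)).smooth_c i) (fun t ht => (h (T + 1)).sp ht i) n
  refine ⟨fun k => (∑ i, C i) * sw k, summable_K3.mul_left _,
    fun k => mul_nonneg (Finset.sum_nonneg fun i _ => hC0 i) (sw_nonneg k), fun t ht k => ?_⟩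
  have hw : 0 < (1 + len k) ^ n := lt_of_lt_of_le one_pos (one_le_wt k n)
  rw [mul_comm, ← le_div_iff₀ hw]
  have h0 : 0 ≤ (∑ i, C i) * sw k :=
    mul_nonneg (Finset.sum_nonneg fun i _ => hC0 i) (sw_nonneg k)
  refine (pi_norm_le_iff_of_nonneg (div_nonneg h0 hw.le)).2 fun i => ?_
  rw [le_div_iff₀ hw, mul_comm]
  refine (hC i t ht k).trans ?_
  exact mul_le_mul_of_nonneg_right (Finset.single_le_sum (f := C) (fun i _ => hC0 i)
    (Finset.mem_univ i)) (sw_nonneg k)

theorem L1_vf (h : ∀ T, IsSol ν T U P) {t : ℝ} (ht : 0 ≤ t) : L1 (vf (U t)) := by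
  obtain ⟨A, hA, -, hb⟩ := maj_vf h 0 t
  refine Summable.of_nonneg_of_le (fun k => norm_nonneg _) (fun k => ?_) hA
  simpa using hb t ⟨ht, le_rfl⟩ k

theorem dv_vf (h : ∀ T, IsSol ν T U P) {t : ℝ} (ht : 0 ≤ t) : Dv (vf (U t)) := by
  intro k
  have hI : t ∈ Ico 0 (t + 1) := ⟨ht, lt_add_one t⟩
  exact fr_div (v := fun i y => U t y i) (fun i => (h (t + 1)).sp hI i)
    ((h (t + 1)).divfree t hI) k

theorem herm_vf (u : V → V) : Herm (vf u) := fun k i => Pool.Agent.Run7.h32.GD.fr_neg _ k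

theorem cont_vf (h : ∀ T, IsSol ν T U P) (k : K3) : ContinuousOn (fun s => vf (U s) k) (Ici 0) := by
  rw [continuousOn_pi]
  intro i t ht
  have ht' : (0 : ℝ) ≤ t := ht
  have hc := fr_continuousOn (f := fun t y => U t y i) ((h (t + 1)).smooth_c i).continuousOn k
  have h1 := hc t ⟨ht', lt_add_one t⟩
  refine h1.mono_of_mem_nhdsWithin ?_
  rw [mem_nhdsWithin]
  exact ⟨Iio (t + 1), isOpen_Iio, lt_add_one t, fun s hs => ⟨hs.2, hs.1⟩⟩

/-- The convolution term. -/
theorem conv_vf (h : ∀ T, IsSol ν T U P) {t : ℝ} (ht : 0 ≤ t) (k : K3) :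
    (fun i => fr (conv (fun i y => U t y i) i) k)
      = (2 * Real.pi * Complex.I : ℂ) • ∑' p : K3, kd k (vf (U t) p) • vf (U t) (k - p) := by
  have hI : t ∈ Ico 0 (t + 1) := ⟨ht, lt_add_one t⟩
  have hsp : ∀ i, SP (fun y => U t y i) := fun i => (h (t + 1)).sp hI i
  have hz : (2 * Real.pi * Complex.I : ℂ) ≠ 0 := by
    simp [Real.pi_ne_zero, Complex.I_ne_zero]
  have hs : ∀ i, HasSum (fun p => kd k (vf (U t) p) * fr (fun y => U t y i) (k - p))
      ((2 * Real.pi * Complex.I : ℂ)⁻¹ * fr (conv (fun i y => U t y i) i) k) := by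
    intro i
    have h1 : fr (conv (fun i y => U t y i) i) k
        = ∑ j, fr (fun x => U t x j * pd j (fun y => U t y i) x) k :=
      fr_sum (fun j _ => (hsp j).mul ((hsp i).pd j)) k
    have h2 := hasSum_sum (s := Finset.univ) fun (j : Fin 3) _ => fr_mul (hsp j) ((hsp i).pd j) k
    rw [h1]
    have h5 := h2.mul_left ((2 * Real.pi * Complex.I : ℂ)⁻¹)
    refine (funext fun p => ?_ : (fun p => (2 * Real.pi * Complex.I : ℂ)⁻¹ *
      ∑ j, fr (fun y => U t y j) p * fr (pd j fun y => U t y i) (k - p))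
      = fun p => kd k (vf (U t) p) * fr (fun y => U t y i) (k - p)) ▸ h5
    have h3 : kd (k - p) (vf (U t) p) = kd k (vf (U t) p) := by
      rw [kd_sub_left, dv_vf h ht p, sub_zero]
    have h4 : ∑ j, fr (fun y => U t y j) p * fr (pd j fun y => U t y i) (k - p)
        = (2 * Real.pi * Complex.I : ℂ) * (kd (k - p) (vf (U t) p) * fr (fun y => U t y i) (k - p)) := by
      rw [kd, Finset.sum_mul, Finset.mul_sum]
      refine Finset.sum_congr rfl fun j _ => ?_
      rw [fr_pd (hsp i), D, vf]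
      push_cast [Pi.sub_apply]
      ring
    rw [h4, h3, inv_mul_cancel_left₀ hz]
  have hs' : HasSum (fun p => kd k (vf (U t) p) • vf (U t) (k - p))
      (fun i => (2 * Real.pi * Complex.I : ℂ)⁻¹ * fr (conv (fun i y => U t y i) i) k) := by
    rw [Pi.hasSum]
    intro i
    exact hs i
  rw [hs'.tsum_eq]
  funext i
  rw [Pi.smul_apply, smul_eq_mul, mul_inv_cancel_left₀ hz]

lemma prj_grad (k : K3) (q : ℂ) : prj k (fun i => (k i : ℂ) * q) = 0 := by
  by_cases hk : k = 0
  · subst hk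
    have : (fun i => (((0 : K3) i : ℤ) : ℂ) * q) = 0 := by
      funext i
      simp
    rw [this, prj_zero]
  · have hq : (h782.GD.sq k : ℂ) ≠ 0 := by exact_mod_cast (sq_pos' hk).ne'
    funext i
    have h2 : kd k (fun i => (k i : ℂ) * q) = (h782.GD.sq k : ℂ) * q := by
      simp only [kd, h782.GD.sq]
      push_cast
      rw [Finset.sum_mul]
      exact Finset.sum_congr rfl fun _ _ => by ring
    simp only [prj]
    rw [h2, mul_div_cancel_left₀ _ hq, sub_self]
    rfl

/-- The equation for positive times. -/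
theorem der_pos (h : ∀ T, IsSol ν T U P) {t : ℝ} (ht : 0 < t) (k : K3) :
    HasDerivAt (fun s => vf (U s) k)
      (-(lam ν k : ℂ) • vf (U t) k - nl (vf (U t)) (vf (U t)) k) t := by
  have hT := h (t + 1)
  have hO : t ∈ Ioo 0 (t + 1) := ⟨ht, lt_add_one t⟩
  have hI : t ∈ Ico 0 (t + 1) := ⟨ht.le, lt_add_one t⟩
  have hsp : ∀ i, SP (fun y => U t y i) := fun i => hT.sp hI i
  obtain ⟨W, hW⟩ : ∃ W : C3, W = fun i => fr (conv (fun i y => U t y i) i) k := ⟨_, rfl⟩
  have hnl : nl (vf (U t)) (vf (U t)) k = prj k W := by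
    rw [hW, conv_vf h ht.le k, prj_smul, nl]
  obtain ⟨q, hq⟩ : ∃ q : ℂ, q = 2 * Real.pi * Complex.I * fr (P t) k := ⟨_, rfl⟩
  have hD : HasDerivAt (fun s => vf (U s) k)
      (-(lam ν k : ℂ) • vf (U t) k - W - fun i => (k i : ℂ) * q) t := by
    rw [hasDerivAt_pi]
    intro i
    refine (fr_hasDerivAt (f := fun s y => U s y i) (hT.smooth_c i) k hO).congr_deriv ?_
    have e1 : dt (fun s y => U s y i) t = fun x => (ν * lap (fun y => U t y i) x
        - conv (fun i y => U t y i) i x) - pd i (P t) x := funext fun x => hT.dt_eq hO i x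
    have hc1 : SP (conv (fun i y => U t y i) i) := sp_conv (v := fun i y => U t y i) hsp i
    have c1 : Continuous fun x => ν * lap (fun y => U t y i) x :=
      continuous_const.mul (hsp i).lap.smooth.continuous
    have c2 : Continuous fun x => ν * lap (fun y => U t y i) x
        - conv (fun i y => U t y i) i x := c1.sub hc1.smooth.continuous
    have c3 : Continuous fun x => pd i (P t) x := ((hT.sp_p hI).pd i).smooth.continuous
    rw [e1, Pool.Agent.Run7.h32.GD.fr_sub c2 c3,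
      Pool.Agent.Run7.h32.GD.fr_sub c1 hc1.smooth.continuous, fr_const_mul, fr_lap (hsp i)]
    have e2 : fr (fun x => pd i (P t) x) k = 2 * Real.pi * Complex.I * (k i : ℂ) * fr (P t) k := by
      have := congrFun (fr_pd (hT.sp_p hI) i) k
      exact this
    rw [e2]
    simp only [Pi.sub_apply, Pi.smul_apply, smul_eq_mul, hW, hq, vf, lam]
    push_cast
    ring
  have hkd : HasDerivAt (fun s => kd k (vf (U s) k))
      (kd k (-(lam ν k : ℂ) • vf (U t) k - W - fun i => (k i : ℂ) * q)) t := by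
    have h1 := HasDerivAt.fun_sum (u := Finset.univ) fun (j : Fin 3) _ =>
      ((hasDerivAt_pi.1 hD) j).const_mul (k j : ℂ)
    exact h1
  have hzero : kd k (-(lam ν k : ℂ) • vf (U t) k - W - fun i => (k i : ℂ) * q) = 0 := by
    have h1 : HasDerivAt (fun s => kd k (vf (U s) k)) 0 t := by
      refine (hasDerivAt_const t (0 : ℂ)).congr_of_eventuallyEq ?_
      filter_upwards [Ioi_mem_nhds ht] with s hs
      exact dv_vf h (le_of_lt hs) k
    exact hkd.unique h1
  have hfin : (-(lam ν k : ℂ) • vf (U t) k - W - fun i => (k i : ℂ) * q)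
      = -(lam ν k : ℂ) • vf (U t) k - nl (vf (U t)) (vf (U t)) k := by
    rw [← prj_of_kd_eq_zero hzero, prj_sub, prj_sub, prj_smul, prj_grad, sub_zero,
      prj_of_kd_eq_zero (dv_vf h ht.le k), hnl]
  rw [← hfin]
  exact hD

/-- Continuity of the nonlinear term. -/
theorem cont_nl (h : ∀ T, IsSol ν T U P) (k : K3) :
    ContinuousOn (fun t => nl (vf (U t)) (vf (U t)) k) (Ici 0) := by
  intro t ht
  have ht' : (0 : ℝ) ≤ t := ht
  obtain ⟨A, hA, hA0, hb⟩ := maj_vf h 0 (t + 1)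
  have hb' : ∀ s ∈ Icc 0 (t + 1), ∀ k, ‖vf (U s) k‖ ≤ A k := fun s hs k => by
    simpa using hb s hs k
  have hc : ContinuousOn (fun s => ∑' p : K3, kd k (vf (U s) p) • vf (U s) (k - p))
      (Icc 0 (t + 1)) := by
    refine continuousOn_tsum (u := fun p => 3 * len k * (A p * ∑' q, A q)) (fun p => ?_)
      ((hA.mul_right _).mul_left _) (fun p s hs => ?_)
    · have h1 : ContinuousOn (fun s => vf (U s) p) (Icc 0 (t + 1)) :=
        (cont_vf h p).mono Icc_subset_Ici_self
      have h2 : ContinuousOn (fun s => vf (U s) (k - p)) (Icc 0 (t + 1)) :=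
        (cont_vf h (k - p)).mono Icc_subset_Ici_self
      have h3 : ContinuousOn (fun s => kd k (vf (U s) p)) (Icc 0 (t + 1)) := by
        unfold kd
        exact continuousOn_finsetSum _ fun j _ =>
          continuousOn_const.mul ((continuousOn_pi.1 h1) j)
      exact h3.smul h2
    · refine (norm_term_le k _ _).trans ?_
      apply mul_le_mul_of_nonneg_left _ (mul_nonneg (by norm_num) (len_nonneg k))
      exact mul_le_mul (hb' s hs p) ((hb' s hs _).trans (hA.le_tsum _ fun q _ => hA0 q))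
        (norm_nonneg _) (hA0 p)
  have hc2 : ContinuousOn (fun s => nl (vf (U s)) (vf (U s)) k) (Icc 0 (t + 1)) := by
    have h1 : ContinuousOn (fun s => prj k (∑' p : K3, kd k (vf (U s) p) • vf (U s) (k - p)))
        (Icc 0 (t + 1)) := (prjC k).continuous.comp_continuousOn hc
    exact h1.const_smul (2 * Real.pi * Complex.I : ℂ)
  have h1 := hc2 t ⟨ht', by linarith⟩
  refine h1.mono_of_mem_nhdsWithin ?_
  rw [mem_nhdsWithin]
  exact ⟨Iio (t + 1), isOpen_Iio, lt_add_one t, fun s hs => ⟨hs.2, le_of_lt hs.1⟩⟩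

/-- The equation up to the initial time. -/
theorem der_vf (h : ∀ T, IsSol ν T U P) {t : ℝ} (ht : 0 ≤ t) (k : K3) :
    HasDerivWithinAt (fun s => vf (U s) k)
      (-(lam ν k : ℂ) • vf (U t) k - nl (vf (U t)) (vf (U t)) k) (Ici 0) t := by
  rcases ht.eq_or_lt with rfl | ht'
  · refine hasDerivWithinAt_Ici_of_tendsto_deriv (s := Ioi 0) ?_ ?_ self_mem_nhdsWithin ?_
    · exact fun s hs => (der_pos h hs k).differentiableAt.differentiableWithinAt
    · exact (cont_vf h k 0 self_mem_Ici).mono Ioi_subset_Ici_self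
    · have hc : ContinuousOn (fun t => -(lam ν k : ℂ) • vf (U t) k
          - nl (vf (U t)) (vf (U t)) k) (Ici 0) :=
        ContinuousOn.sub (f := fun t => -(lam ν k : ℂ) • vf (U t) k)
          ((cont_vf h k).const_smul (-(lam ν k : ℂ))) (cont_nl h k)
      have h1 : Tendsto (fun t => -(lam ν k : ℂ) • vf (U t) k - nl (vf (U t)) (vf (U t)) k)
          (𝓝[>] 0) (𝓝 (-(lam ν k : ℂ) • vf (U 0) k - nl (vf (U 0)) (vf (U 0)) k)) :=
        (hc 0 self_mem_Ici).mono Ioi_subset_Ici_self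
      refine h1.congr' ?_
      filter_upwards [self_mem_nhdsWithin] with s hs
      exact (der_pos h hs k).deriv.symm
  · exact (der_pos h ht' k).hasDerivWithinAt

/-- The mean is preserved. -/
theorem zero_vf (h : ∀ T, IsSol ν T U P) (h0 : ∀ i, ∫ x in cube, U 0 x i = 0) {t : ℝ}
    (ht : 0 ≤ t) : vf (U t) 0 = 0 := by
  have hd : ∀ s, 0 ≤ s → HasDerivWithinAt (fun s => vf (U s) 0) 0 (Ici 0) s := by
    intro s hs
    refine (der_vf h hs 0).congr_deriv ?_
    rw [nl_zero_mode, lam, sq_zero']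
    simp
  have h1 : vf (U t) 0 = vf (U 0) 0 := by
    have := constant_of_derivWithin_zero (f := fun s => vf (U s) 0) (a := 0) (b := t)
      (fun s hs => ((hd s hs.1).mono Icc_subset_Ici_self).differentiableWithinAt)
      (fun s hs => by
        have h2 : HasDerivWithinAt (fun s => vf (U s) 0) 0 (Icc 0 t) s :=
          (hd s hs.1).mono Icc_subset_Ici_self
        exact h2.derivWithin (uniqueDiffOn_Icc (hs.1.trans_lt hs.2) s ⟨hs.1, hs.2.le⟩)) t
      ⟨ht, le_rfl⟩
    exact this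
  rw [h1]
  funext i
  rw [vf, Pool.Agent.Run7.h32.GD.fr_zero_eq, h0 i]
  simp

/-- **The coefficients of a global smooth solution with mean zero.** -/
theorem tsol (h : ∀ T, IsSol ν T U P) (h0 : ∀ i, ∫ x in cube, U 0 x i = 0) :
    TSol ν (fun t => vf (U t)) where
  zero := fun _ ht => zero_vf h h0 ht
  herm := fun t _ => herm_vf (U t)
  div := fun _ ht => dv_vf h ht
  der := fun _ ht k => der_vf h ht k
  maj := fun n T => maj_vf h n T

end Pool.Agent.Run7.h969.GD
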