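import Pool.Agent.H459R3.NS.High2
import Pool.Agent.Run7.h782.GD.Bas
import Pool.Agent.Run7.h32.GD.Fou

/-!
Piece F1: the Fourier coefficients of a smooth periodic solution (helper969). Uniform decay and
continuity.
-/

set_option autoImplicit false

open MeasureTheory Set Filter Topology
open scoped ContDiff

namespace Pool.Agent.Run7.h969.GD

open H459R3.NS Pool.Agent.Run7.h782.GD

/-! ### Uniform decay -/

lemma norm_fr_le_int {f : V → ℝ} (k : K3) : ‖fr f k‖ ≤ ∫ x in cube, |f x| := by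
  unfold fr fc
  refine (norm_integral_le_integral_norm _).trans (le_of_eq ?_)
  congr 1
  funext x
  rw [norm_mul, norm_ee, one_mul, Complex.norm_real, Real.norm_eq_abs]

/-- The coefficients are bounded uniformly on compact time intervals. -/
theorem fr_unif {T T' : ℝ} {f : ℝ → V → ℝ} (hT : T < T')
    (hf : ContinuousOn (fun z : ℝ × V => f z.1 z.2) (Ico 0 T' ×ˢ univ)) :
    ∃ C : ℝ, 0 ≤ C ∧ ∀ t ∈ Icc 0 T, ∀ k, ‖fr (f t) k‖ ≤ C := by
  have hK : IsCompact (Icc 0 T ×ˢ cube) := isCompact_Icc.prod isCompact_Icc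
  have hsub : Icc 0 T ×ˢ cube ⊆ Ico 0 T' ×ˢ (univ : Set V) :=
    prod_mono (fun s hs => ⟨hs.1, hs.2.trans_lt hT⟩) (subset_univ _)
  obtain ⟨C, hC⟩ := hK.exists_bound_of_continuousOn (hf.mono hsub)
  refine ⟨max C 0, le_max_right _ _, fun t ht k => ?_⟩
  have hc : Continuous (f t) := by
    have := hf.comp_continuous (f := fun x : V => ((t, x) : ℝ × V)) (by fun_prop)
      (fun x => ⟨⟨ht.1, ht.2.trans_lt hT⟩, mem_univ _⟩)
    exact this
  have := cube_finite
  calc ‖fr (f t) k‖ ≤ ∫ x in cube, |f t x| := norm_fr_le_int k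
    _ ≤ ∫ _x in cube, max C 0 := by
        refine setIntegral_mono_on (integrableOn_cube hc.abs) (integrableOn_cube continuous_const)
          measurableSet_Icc fun x hx => ?_
        exact (hC (t, x) ⟨ht, hx⟩).trans (le_max_left _ _)
    _ = max C 0 := by
        rw [setIntegral_const, Measure.real, volume_cube]
        simp

theorem iter_contDiffOn {T : ℝ} {f : ℝ → V → ℝ}
    (hf : ContDiffOn ℝ ∞ (fun z : ℝ × V => f z.1 z.2) (Ico 0 T ×ˢ univ)) (j : Fin 3) (n : ℕ) :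
    ContDiffOn ℝ ∞ (fun z : ℝ × V => (pd j)^[n] (f z.1) z.2) (Ico 0 T ×ˢ univ) := by
  induction n with
  | zero => exact hf
  | succ n ih =>
    have h1 := contDiffOn_pd (f := fun t => (pd j)^[n] (f t)) ih j
    refine h1.congr fun z _ => ?_
    rw [Function.iterate_succ_apply']

/-- Uniform bounds for weighted coefficients. -/
theorem N_pow_fr_unif {T T' : ℝ} {f : ℝ → V → ℝ} (hT : T < T')
    (hf : ContDiffOn ℝ ∞ (fun z : ℝ × V => f z.1 z.2) (Ico 0 T' ×ˢ univ))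
    (hp : ∀ t ∈ Ico 0 T', SP (f t)) (n : ℕ) :
    ∃ C : ℝ, 0 ≤ C ∧ ∀ t ∈ Icc 0 T, ∀ k, (N k : ℝ) ^ n * ‖fr (f t) k‖ ≤ C := by
  choose C hC0 hC using fun j => fr_unif (f := fun t => (pd j)^[n] (f t)) hT
    (iter_contDiffOn hf j n).continuousOn
  refine ⟨∑ j, C j, Finset.sum_nonneg fun j _ => hC0 j, fun t ht k => ?_⟩
  have hsp : SP (f t) := hp t ⟨ht.1, ht.2.trans_lt hT⟩
  have h1 : ∀ j, |(k j : ℝ)| ^ n * ‖fr (f t) k‖ ≤ C j := by
    intro j
    refine le_trans ?_ (hC j t ht k)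
    rw [fr_iter hsp, norm_mul, norm_pow]
    gcongr
    rw [norm_mul, norm_mul, norm_mul, Complex.norm_I, mul_one, Complex.norm_real,
      Real.norm_eq_abs, abs_of_pos Real.pi_pos, Complex.norm_ofNat, Complex.norm_intCast]
    have h0 : 0 ≤ |(k j : ℝ)| := abs_nonneg _
    have := Real.pi_gt_three
    nlinarith
  calc (N k : ℝ) ^ n * ‖fr (f t) k‖ ≤ (∑ j, |(k j : ℝ)| ^ n) * ‖fr (f t) k‖ := by
        gcongr
        exact N_pow_le k n
    _ = ∑ j, |(k j : ℝ)| ^ n * ‖fr (f t) k‖ := Finset.sum_mul _ _ _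
    _ ≤ ∑ j, C j := Finset.sum_le_sum fun j _ => h1 j

/-- A summable weight. -/
noncomputable def sw (k : K3) : ℝ :=
  (1 / (1 + (k 0 : ℝ) ^ 2)) * ((1 / (1 + (k 1 : ℝ) ^ 2)) * (1 / (1 + (k 2 : ℝ) ^ 2)))

lemma len_le_N (k : K3) : len k ≤ 2 * N k := by
  have h : len k ^ 2 ≤ (2 * (N k : ℝ)) ^ 2 := by
    rw [len_sq, h782.GD.sq]
    have h1 : ∀ j, (k j : ℝ) ^ 2 ≤ (N k : ℝ) ^ 2 := by
      intro j
      have h := (N_le_iff k (N k)).1 le_rfl j
      have h1 : |(k j : ℝ)| ≤ N k := by exact_mod_cast h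
      rw [← sq_abs (k j : ℝ)]
      exact pow_le_pow_left₀ (abs_nonneg _) h1 2
    have h2 : ∑ j, (k j : ℝ) ^ 2 ≤ ∑ _j : Fin 3, (N k : ℝ) ^ 2 :=
      Finset.sum_le_sum fun j _ => h1 j
    rw [Finset.sum_const, Finset.card_univ, Fintype.card_fin, nsmul_eq_mul] at h2
    push_cast at h2
    nlinarith [sq_nonneg (N k : ℝ)]
  exact (abs_le_of_sq_le_sq' h (by positivity)).2

/-- The summable majorant. -/
theorem maj_fr {T T' : ℝ} {f : ℝ → V → ℝ} (hT : T < T')
    (hf : ContDiffOn ℝ ∞ (fun z : ℝ × V => f z.1 z.2) (Ico 0 T' ×ˢ univ))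
    (hp : ∀ t ∈ Ico 0 T', SP (f t)) (n : ℕ) :
    ∃ C : ℝ, 0 ≤ C ∧ ∀ t ∈ Icc 0 T, ∀ k, (1 + len k) ^ n * ‖fr (f t) k‖ ≤ C * sw k := by
  obtain ⟨C0, hC00, hC0⟩ := N_pow_fr_unif hT hf hp 0
  obtain ⟨C1, hC10, hC1⟩ := N_pow_fr_unif hT hf hp (n + 6)
  refine ⟨4 ^ (n + 6) * (C0 + C1), by positivity, fun t ht k => ?_⟩
  have hN : (0 : ℝ) ≤ N k := by positivity
  obtain ⟨y, hy⟩ : ∃ y, y = ‖fr (f t) k‖ := ⟨_, rfl⟩
  have hy0 : 0 ≤ y := hy ▸ norm_nonneg _
  have a0 := hC0 t ht k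
  have a1 := hC1 t ht k
  rw [← hy] at a0 a1 ⊢
  rw [pow_zero, one_mul] at a0
  have h1 : (1 + (N k : ℝ)) ^ (n + 6) * y ≤ 2 ^ (n + 6) * (C0 + C1) := by
    rcases le_total (N k : ℝ) 1 with h | h
    · have h2 : (1 + (N k : ℝ)) ^ (n + 6) ≤ 2 ^ (n + 6) := by
        apply pow_le_pow_left₀ (by positivity)
        linarith
      calc (1 + (N k : ℝ)) ^ (n + 6) * y ≤ 2 ^ (n + 6) * y :=
            mul_le_mul_of_nonneg_right h2 hy0
        _ ≤ 2 ^ (n + 6) * (C0 + C1) := mul_le_mul_of_nonneg_left (by linarith) (by positivity)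
    · have h2 : (1 + (N k : ℝ)) ^ (n + 6) ≤ 2 ^ (n + 6) * (N k : ℝ) ^ (n + 6) := by
        rw [← mul_pow]
        apply pow_le_pow_left₀ (by positivity)
        linarith
      calc (1 + (N k : ℝ)) ^ (n + 6) * y ≤ 2 ^ (n + 6) * (N k : ℝ) ^ (n + 6) * y :=
            mul_le_mul_of_nonneg_right h2 hy0
        _ = 2 ^ (n + 6) * ((N k : ℝ) ^ (n + 6) * y) := by ring
        _ ≤ 2 ^ (n + 6) * (C0 + C1) := mul_le_mul_of_nonneg_left (by linarith) (by positivity)
  have hprod : (1 + (k 0 : ℝ) ^ 2) * ((1 + (k 1 : ℝ) ^ 2) * (1 + (k 2 : ℝ) ^ 2))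
      ≤ (1 + (N k : ℝ)) ^ 6 := by
    have h0 := one_add_sq_le k 0
    have h1' := one_add_sq_le k 1
    have h2' := one_add_sq_le k 2
    calc (1 + (k 0 : ℝ) ^ 2) * ((1 + (k 1 : ℝ) ^ 2) * (1 + (k 2 : ℝ) ^ 2))
        ≤ (1 + (N k : ℝ)) ^ 2 * ((1 + (N k : ℝ)) ^ 2 * (1 + (N k : ℝ)) ^ 2) := by gcongr
      _ = _ := by ring
  have hP : (0 : ℝ) < (1 + (k 0 : ℝ) ^ 2) * ((1 + (k 1 : ℝ) ^ 2) * (1 + (k 2 : ℝ) ^ 2)) := by
    positivity
  have hlen : (1 + len k) ^ n ≤ 2 ^ n * (1 + (N k : ℝ)) ^ n := by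
    rw [← mul_pow]
    apply pow_le_pow_left₀ (by linarith [len_nonneg k])
    linarith [len_le_N k]
  have e : 4 ^ (n + 6) * (C0 + C1) * sw k = (4 ^ (n + 6) * (C0 + C1))
      / ((1 + (k 0 : ℝ) ^ 2) * ((1 + (k 1 : ℝ) ^ 2) * (1 + (k 2 : ℝ) ^ 2))) := by
    unfold sw
    field_simp
  rw [e, le_div_iff₀ hP]
  calc (1 + len k) ^ n * y * ((1 + (k 0 : ℝ) ^ 2) * ((1 + (k 1 : ℝ) ^ 2) * (1 + (k 2 : ℝ) ^ 2)))
      ≤ (2 ^ n * (1 + (N k : ℝ)) ^ n) * y * (1 + (N k : ℝ)) ^ 6 := by gcongr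
    _ = 2 ^ n * ((1 + (N k : ℝ)) ^ (n + 6) * y) := by ring
    _ ≤ 2 ^ n * (2 ^ (n + 6) * (C0 + C1)) := mul_le_mul_of_nonneg_left h1 (by positivity)
    _ ≤ 2 ^ (n + 6) * (2 ^ (n + 6) * (C0 + C1)) := by
        apply mul_le_mul_of_nonneg_right _ (by positivity)
        exact pow_le_pow_right₀ (by norm_num) (by omega)
    _ = 4 ^ (n + 6) * (C0 + C1) := by
        rw [← mul_assoc, ← mul_pow]
        norm_num

/-! ### Time derivative of the coefficients -/

lemma fr_reim {f : V → ℝ} (hf : Continuous f) (k : K3) :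
    fr f k = ((∫ x in cube, (ee (-k) x).re * f x : ℝ) : ℂ)
      + ((∫ x in cube, (ee (-k) x).im * f x : ℝ) : ℂ) * Complex.I := by
  have hre : Continuous fun x => (ee (-k) x).re * f x :=
    (Complex.continuous_re.comp (ee_continuous (-k))).mul hf
  have him : Continuous fun x => (ee (-k) x).im * f x :=
    (Complex.continuous_im.comp (ee_continuous (-k))).mul hf
  have h1 : Integrable (fun x => (((ee (-k) x).re * f x : ℝ) : ℂ)) (volume.restrict cube) :=
    (integrableOn_cube hre).ofReal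
  have h2 : Integrable (fun x => (((ee (-k) x).im * f x : ℝ) : ℂ) * Complex.I)
      (volume.restrict cube) := ((integrableOn_cube him).ofReal).mul_const _
  unfold fr fc
  rw [← integral_complex_ofReal, ← integral_complex_ofReal, ← integral_mul_const,
    ← integral_add h1 h2]
  congr 1
  funext x
  apply Complex.ext <;> simp

theorem fr_continuousOn {T : ℝ} {f : ℝ → V → ℝ}
    (hf : ContinuousOn (fun z : ℝ × V => f z.1 z.2) (Ico 0 T ×ˢ univ)) (k : K3) :
    ContinuousOn (fun s => fr (f s) k) (Ico 0 T) := by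
  have hsl : ∀ t ∈ Ico 0 T, Continuous (f t) := fun t ht => by
    have := hf.comp_continuous (f := fun x : V => ((t, x) : ℝ × V)) (by fun_prop)
      (fun x => ⟨ht, mem_univ _⟩)
    exact this
  have hre : ContinuousOn (fun s => ∫ x in cube, (ee (-k) x).re * f s x) (Ico 0 T) :=
    continuousOn_int (F := fun s x => (ee (-k) x).re * f s x)
      (((Complex.continuous_re.comp (ee_continuous (-k))).comp continuous_snd).continuousOn.mul hf)
  have him : ContinuousOn (fun s => ∫ x in cube, (ee (-k) x).im * f s x) (Ico 0 T) :=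
    continuousOn_int (F := fun s x => (ee (-k) x).im * f s x)
      (((Complex.continuous_im.comp (ee_continuous (-k))).comp continuous_snd).continuousOn.mul hf)
  have h3 : ContinuousOn (fun s => ((∫ x in cube, (ee (-k) x).re * f s x : ℝ) : ℂ)
      + ((∫ x in cube, (ee (-k) x).im * f s x : ℝ) : ℂ) * Complex.I) (Ico 0 T) :=
    (Complex.continuous_ofReal.comp_continuousOn hre).add
      ((Complex.continuous_ofReal.comp_continuousOn him).mul continuousOn_const)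
  exact h3.congr fun s hs => fr_reim (hsl s hs) k

theorem fr_hasDerivAt {T : ℝ} {f : ℝ → V → ℝ}
    (hf : ContDiffOn ℝ ∞ (fun z : ℝ × V => f z.1 z.2) (Ico 0 T ×ˢ univ)) (k : K3) {t : ℝ}
    (ht : t ∈ Ioo 0 T) : HasDerivAt (fun s => fr (f s) k) (fr (dt f t) k) t := by
  have hsl : ∀ t ∈ Ico 0 T, Continuous (f t) := fun t ht => (contDiff_slice hf ht).continuous
  have hree : ContDiff ℝ 1 fun z : ℝ × V => (ee (-k) z.2).re :=
    Complex.reCLM.contDiff.comp ((ee_contDiff (-k)).comp contDiff_snd)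
  have himm : ContDiff ℝ 1 fun z : ℝ × V => (ee (-k) z.2).im :=
    Complex.imCLM.contDiff.comp ((ee_contDiff (-k)).comp contDiff_snd)
  have hf1 : ContDiffOn ℝ 1 (fun z : ℝ × V => f z.1 z.2) (Ioo 0 T ×ˢ univ) :=
    mono_Ioo hf (by norm_cast)
  have hd : ∀ x, HasDerivAt (fun s => f s x) (dt f t x) t := fun x => by
    have := hasDerivAt_slice hf1 ht x
    rwa [← dt_eq hf ht x] at this
  have hre := hasDerivAt_int (F := fun s x => (ee (-k) x).re * f s x)
    (hree.contDiffOn.mul hf1) ht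
  have him := hasDerivAt_int (F := fun s x => (ee (-k) x).im * f s x)
    (himm.contDiffOn.mul hf1) ht
  have e1 : ∀ x, deriv (fun s => (ee (-k) x).re * f s x) t = (ee (-k) x).re * dt f t x :=
    fun x => ((hd x).const_mul _).deriv
  have e2 : ∀ x, deriv (fun s => (ee (-k) x).im * f s x) t = (ee (-k) x).im * dt f t x :=
    fun x => ((hd x).const_mul _).deriv
  simp only [e1] at hre
  simp only [e2] at him
  have h3 := (hre.ofReal_comp).add ((him.ofReal_comp).mul_const Complex.I)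
  have h4 : HasDerivAt (fun s => fr (f s) k)
      (((∫ x in cube, (ee (-k) x).re * dt f t x : ℝ) : ℂ)
      + ((∫ x in cube, (ee (-k) x).im * dt f t x : ℝ) : ℂ) * Complex.I) t := by
    refine h3.congr_of_eventuallyEq ?_
    filter_upwards [Ioo_mem_nhds ht.1 ht.2] with s hs
    exact fr_reim (hsl s ⟨hs.1.le, hs.2⟩) k
  rwa [← fr_reim (contDiff_dt hf ht).continuous k] at h4

/-! ### Products -/

lemma fr_mul {f g : V → ℝ} (hf : SP f) (hg : SP g) (k : K3) :
    HasSum (fun p => fr f p * fr g (k - p)) (fr (fun x => f x * g x) k) := by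
  have h := integral_ee_S_S (-k) (rap_fr hf).summable (rap_fr hg).summable
  rw [neg_neg] at h
  have e : (∫ x in cube, ee (-k) x * (S (fr f) x * S (fr g) x)) = fr (fun x => f x * g x) k := by
    have h1 : ∀ x, ee (-k) x * (S (fr f) x * S (fr g) x)
        = ee (-k) x * ((f x * g x : ℝ) : ℂ) := fun x => by
      rw [S_fr hf, S_fr hg]
      push_cast
      ring
    simp_rw [h1]
    rfl
  rwa [e] at h

lemma fr_const_mul {f : V → ℝ} (c : ℝ) (k : K3) : fr (fun x => c * f x) k = c * fr f k := by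
  unfold fr fc
  rw [← integral_const_mul]
  congr 1
  funext x
  push_cast
  ring

lemma fr_lap {f : V → ℝ} (hf : SP f) (k : K3) :
    fr (lap f) k = -((4 * Real.pi ^ 2 * h782.GD.sq k : ℝ) : ℂ) * fr f k := by
  have h1 : fr (lap f) k = ∑ j, fr (pd j (pd j f)) k := fr_sum (fun j _ => (hf.pd j).pd j) k
  rw [h1]
  have h2 : ∀ j, fr (pd j (pd j f)) k = -(4 * Real.pi ^ 2 * (k j : ℂ) ^ 2) * fr f k := by
    intro j
    rw [fr_pd (hf.pd j), D, fr_pd hf, D]
    have : Complex.I ^ 2 = -1 := Complex.I_sq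
    linear_combination (4 * Real.pi ^ 2 * (k j : ℂ) ^ 2 * fr f k) * this
  simp only [h2]
  rw [← Finset.sum_mul, Finset.sum_neg_distrib, ← Finset.mul_sum]
  congr 2
  rw [h782.GD.sq]
  push_cast
  ring

end Pool.Agent.Run7.h969.GD
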