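import Pool.Agent.Run7.h782.GD.Bas
import Pool.Agent.Run7.h32.GD.Ser

/-!
Piece P6: once the critical norm is small the sum of the lengths of the coefficients does not
increase (helper969).
-/

set_option autoImplicit false

open MeasureTheory Set Filter Topology

namespace Pool.Agent.Run7.h969.GD

open H459R3.NS Pool.Agent.Run7.h782.GD

/-! ### The nonlinear term -/

/-- The sum of the lengths of the coefficients of `(a·∇) a`, for divergence free `a`. -/
theorem sum_nl_dv_le {a : Cf} (ha : L1 a) (ha1 : Summable fun k => len k * ‖a k‖) (hdv : Dv a)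
    (A : Finset K3) :
    ∑ k ∈ A, ‖nl a a k‖ ≤ 24 * Real.pi * (∑' k, ‖a k‖) * ∑' k, len k * ‖a k‖ := by
  set f : K3 → ℝ := fun k => ‖a k‖ with hf
  set g : K3 → ℝ := fun k => len k * ‖a k‖ with hg
  have hf0 : ∀ k, 0 ≤ f k := fun k => norm_nonneg _
  have hg0 : ∀ k, 0 ≤ g k := fun k => mul_nonneg (len_nonneg k) (norm_nonneg _)
  have key : ∀ k, ‖nl a a k‖ ≤ 24 * Real.pi * ∑' p, f p * g (k - p) := by
    intro k
    have hc := summable_conv hf0 hg0 ha ha1 k
    have hterm : ∀ p, ‖kd k (a p) • a (k - p)‖ ≤ 3 * (f p * g (k - p)) := by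
      intro p
      have h1 : kd k (a p) = kd (k - p) (a p) := by
        rw [kd_sub_left, hdv p, sub_zero]
      rw [h1, norm_smul]
      calc ‖kd (k - p) (a p)‖ * ‖a (k - p)‖ ≤ 3 * len (k - p) * ‖a p‖ * ‖a (k - p)‖ :=
            mul_le_mul_of_nonneg_right (norm_kd_le _ _) (norm_nonneg _)
        _ = _ := by simp only [hf, hg]; ring
    have h1 : ‖∑' p, kd k (a p) • a (k - p)‖ ≤ 3 * ∑' p, f p * g (k - p) := by
      rw [← tsum_mul_left]
      exact tsum_of_norm_bounded ((hc.mul_left 3).hasSum) hterm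
    rw [nl, norm_smul]
    have h2 : ‖(2 * Real.pi * Complex.I : ℂ)‖ = 2 * Real.pi := by
      rw [norm_mul, norm_mul, Complex.norm_I, Complex.norm_real, Real.norm_eq_abs,
        abs_of_pos Real.pi_pos]
      norm_num
    rw [h2]
    have h3 := (norm_prj_le k (∑' p, kd k (a p) • a (k - p))).trans
      (mul_le_mul_of_nonneg_left h1 (by norm_num : (0 : ℝ) ≤ 4))
    calc 2 * Real.pi * ‖prj k (∑' p, kd k (a p) • a (k - p))‖
        ≤ 2 * Real.pi * (4 * (3 * ∑' p, f p * g (k - p))) :=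
          mul_le_mul_of_nonneg_left h3 (by positivity)
      _ = _ := by ring
  calc ∑ k ∈ A, ‖nl a a k‖ ≤ ∑ k ∈ A, 24 * Real.pi * ∑' p, f p * g (k - p) :=
        Finset.sum_le_sum fun k _ => key k
    _ = 24 * Real.pi * ∑' p, f p * ∑ k ∈ A, g (k - p) := by
        rw [← Finset.mul_sum, ← Summable.tsum_finsetSum fun k _ => summable_conv hf0 hg0 ha ha1 k]
        congr 1
        exact tsum_congr fun p => (Finset.mul_sum _ _ _).symm
    _ ≤ 24 * Real.pi * ∑' p, f p * ∑' q, g q := by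
        have hin : ∀ p : K3, ∑ k ∈ A, g (k - p) ≤ ∑' q, g q := by
          intro p
          have e := Finset.sum_map A (Equiv.subRight p).toEmbedding g
          simp only [Equiv.coe_toEmbedding, Equiv.subRight_apply] at e
          rw [← e]
          exact ha1.sum_le_tsum _ fun q _ => hg0 q
        refine mul_le_mul_of_nonneg_left ?_ (by positivity)
        refine Summable.tsum_le_tsum (fun p => mul_le_mul_of_nonneg_left (hin p) (hf0 p)) ?_
          (Summable.mul_right _ ha)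
        refine Summable.of_nonneg_of_le (fun p => mul_nonneg (hf0 p)
          (Finset.sum_nonneg fun k _ => hg0 _)) (fun p => mul_le_mul_of_nonneg_left (hin p) (hf0 p))
          (Summable.mul_right _ ha)
    _ = _ := by rw [tsum_mul_right]; ring

/-- Interpolation for finite sums. -/
lemma interp {ι : Type*} (A : Finset ι) (x l : ι → ℝ) (hx : ∀ k, 0 ≤ x k) (hl : ∀ k, 0 ≤ l k) :
    (∑ k ∈ A, x k * l k) * (∑ k ∈ A, x k * l k ^ 2) ≤ (∑ k ∈ A, x k) * ∑ k ∈ A, x k * l k ^ 3 := by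
  have h1 : (∑ k ∈ A, x k * l k) * (∑ k ∈ A, x k * l k ^ 2)
      = ∑ j ∈ A, ∑ k ∈ A, (x j * l j) * (x k * l k ^ 2) := Finset.sum_mul_sum _ _ _ _
  have h2 : (∑ k ∈ A, x k) * ∑ k ∈ A, x k * l k ^ 3 = ∑ j ∈ A, ∑ k ∈ A, x j * (x k * l k ^ 3) :=
    Finset.sum_mul_sum _ _ _ _
  have h3 : ∑ j ∈ A, ∑ k ∈ A, (x j * l j) * (x k * l k ^ 2)
      = ∑ j ∈ A, ∑ k ∈ A, (x k * l k) * (x j * l j ^ 2) := Finset.sum_comm
  have h4 : ∑ j ∈ A, ∑ k ∈ A, x j * (x k * l k ^ 3) = ∑ j ∈ A, ∑ k ∈ A, x k * (x j * l j ^ 3) :=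
    Finset.sum_comm
  have h5 : ∑ j ∈ A, ∑ k ∈ A, ((x j * l j) * (x k * l k ^ 2) + (x k * l k) * (x j * l j ^ 2))
      ≤ ∑ j ∈ A, ∑ k ∈ A, (x j * (x k * l k ^ 3) + x k * (x j * l j ^ 3)) := by
    refine Finset.sum_le_sum fun j _ => Finset.sum_le_sum fun k _ => ?_
    have e1 : 0 ≤ x j * x k * ((l j + l k) * (l j - l k) ^ 2) := by
      have := hx j
      have := hx k
      have := hl j
      have := hl k
      positivity
    linarith
  simp only [Finset.sum_add_distrib] at h5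
  rw [h1, h2]
  linarith

/-- The nonlinear term is dominated by the dissipation if the critical norm is small. -/
theorem nl_le_diss {a : Cf} {M : ℝ} (ha : L1 a) (ha1 : Summable fun k => len k * ‖a k‖)
    (ha2 : Summable fun k => h782.GD.sq k * ‖a k‖) (hdv : Dv a) (ha0 : a 0 = 0)
    (hM : ∀ A : Finset K3, ∑ k ∈ A, ‖a k‖ / len k ≤ M) (A : Finset K3) :
    ∑ k ∈ A, ‖nl a a k‖ ≤ 24 * Real.pi * (M * ∑' k, h782.GD.sq k * ‖a k‖) := by
  have hM0 : 0 ≤ M := by simpa using hM ∅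
  have h1 := sum_nl_dv_le ha ha1 hdv A
  have h2 : (∑' k, ‖a k‖) * ∑' k, len k * ‖a k‖ ≤ M * ∑' k, h782.GD.sq k * ‖a k‖ := by
    have hlim : Tendsto (fun A : Finset K3 => (∑ k ∈ A, ‖a k‖) * ∑ k ∈ A, len k * ‖a k‖) atTop
        (𝓝 ((∑' k, ‖a k‖) * ∑' k, len k * ‖a k‖)) := Filter.Tendsto.mul (Summable.hasSum ha) (ha1.hasSum)
    refine le_of_tendsto' hlim fun A => ?_
    have h3 := interp A (fun k => ‖a k‖ / len k) len
      (fun k => div_nonneg (norm_nonneg _) (len_nonneg k)) len_nonneg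
    have e1 : ∀ k, ‖a k‖ / len k * len k = ‖a k‖ := by
      intro k
      by_cases hk : k = 0
      · subst hk
        rw [ha0, norm_zero, zero_div, zero_mul]
      · exact div_mul_cancel₀ _ (len_pos hk).ne'
    have e2 : ∀ k, ‖a k‖ / len k * len k ^ 2 = len k * ‖a k‖ := by
      intro k
      rw [pow_two, ← mul_assoc, e1, mul_comm]
    have e3 : ∀ k, ‖a k‖ / len k * len k ^ 3 = h782.GD.sq k * ‖a k‖ := by
      intro k
      have : ‖a k‖ / len k * len k ^ 3 = (‖a k‖ / len k * len k) * len k ^ 2 := by ring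
      rw [this, e1, len_sq, mul_comm]
    simp only [e1, e2, e3] at h3
    refine h3.trans (mul_le_mul (hM A) (ha2.sum_le_tsum A fun k _ =>
      mul_nonneg (sq_nonneg' k) (norm_nonneg _)) (Finset.sum_nonneg fun k _ =>
      mul_nonneg (sq_nonneg' k) (norm_nonneg _)) hM0)
  calc ∑ k ∈ A, ‖nl a a k‖ ≤ 24 * Real.pi * ((∑' k, ‖a k‖) * ∑' k, len k * ‖a k‖) := by
        rw [← mul_assoc]
        exact h1
    _ ≤ _ := mul_le_mul_of_nonneg_left h2 (by positivity)

/-! ### One coefficient -/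

/-- The growth of the norm of a solution of a damped equation. -/
theorem norm_growth {E : Type*} [NormedAddCommGroup E] [NormedSpace ℂ E] {f : ℝ → E} {N : E}
    {l x ε : ℝ} (hl : 0 ≤ l) (hx : 0 ≤ x) (hε : 0 < ε)
    (hf : HasDerivWithinAt f (-(l : ℂ) • f x - N) (Ici 0) x) :
    ∀ᶠ z in 𝓝[>] x, ‖f z‖ - ‖f x‖ ≤ (z - x) * (‖N‖ - l * ‖f x‖ + ε) := by
  have h1 : HasDerivWithinAt f (-(l : ℂ) • f x - N) (Ioi x) x :=
    hf.mono fun z hz => hx.trans (le_of_lt hz)
  have h2 := (hasDerivWithinAt_iff_isLittleO.1 h1).def hε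
  have h3 : ∀ᶠ z in 𝓝[>] x, z - x < 1 / (l + 1) := by
    have : Tendsto (fun z : ℝ => z - x) (𝓝[>] x) (𝓝 (x - x)) :=
      ((continuous_id.sub continuous_const).tendsto x).mono_left nhdsWithin_le_nhds
    rw [sub_self] at this
    exact this.eventually (gt_mem_nhds (by positivity))
  filter_upwards [h2, h3, self_mem_nhdsWithin] with z h4 h5 h6
  have hz : 0 < z - x := sub_pos.2 h6
  have hlz : l * (z - x) ≤ 1 := by
    have : (l + 1) * (z - x) < 1 := by
      rw [lt_div_iff₀ (by linarith)] at h5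
      linarith
    nlinarith
  rw [Real.norm_eq_abs, abs_of_pos hz] at h4
  have h7 : f z = ((1 - l * (z - x) : ℝ) : ℂ) • f x + (-((z - x : ℝ) : ℂ) • N
      + (f z - f x - (z - x) • (-(l : ℂ) • f x - N))) := by
    have e1 : (z - x) • (-(l : ℂ) • f x - N) = ((z - x : ℝ) : ℂ) • (-(l : ℂ) • f x - N) := by
      rw [← Complex.coe_smul]
    rw [e1]
    push_cast
    module
  have h8 : ‖f z‖ ≤ (1 - l * (z - x)) * ‖f x‖ + ((z - x) * ‖N‖ + ε * (z - x)) := by
    calc ‖f z‖ = ‖((1 - l * (z - x) : ℝ) : ℂ) • f x + (-((z - x : ℝ) : ℂ) • N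
          + (f z - f x - (z - x) • (-(l : ℂ) • f x - N)))‖ := by rw [← h7]
      _ ≤ ‖((1 - l * (z - x) : ℝ) : ℂ) • f x‖ + (‖-((z - x : ℝ) : ℂ) • N‖
          + ‖f z - f x - (z - x) • (-(l : ℂ) • f x - N)‖) :=
          (norm_add_le _ _).trans (add_le_add le_rfl (norm_add_le _ _))
      _ ≤ _ := by
          rw [norm_smul, norm_smul, Complex.norm_real, Real.norm_eq_abs,
            abs_of_nonneg (by linarith : 0 ≤ 1 - l * (z - x)), norm_neg, Complex.norm_real,
            Real.norm_eq_abs, abs_of_pos hz]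
          exact add_le_add le_rfl (add_le_add le_rfl h4)
  nlinarith

/-! ### The theorem -/

theorem stmDecay : StmDecay := by
  refine ⟨1 / 2, by norm_num, ?_⟩
  intro ν hν a hsol s hs hcrit t hst
  obtain ⟨μ, hμ, C, hC⟩ := hsol.dec
  have hC0 : 0 ≤ C := by
    have h1 := (norm_nonneg _).trans (hC 0 le_rfl 0)
    rwa [len_zero, mul_zero, neg_zero, Real.exp_zero, mul_one] at h1
  -- the summability
  have hexp : ∀ k : K3, h782.GD.sq k * Real.exp (-(μ * len k)) ≤ 8 / μ ^ 2 * Real.exp (-(μ / 2 * len k)) := by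
    intro k
    have h1 : (μ / 2 * len k) ^ 2 / 2 ≤ Real.exp (μ / 2 * len k) := by
      have := Real.quadratic_le_exp_of_nonneg (mul_nonneg (by positivity : 0 ≤ μ / 2) (len_nonneg k))
      have h2 : 0 ≤ μ / 2 * len k := mul_nonneg (by positivity) (len_nonneg k)
      linarith
    have h2 : Real.exp (-(μ * len k)) = Real.exp (-(μ / 2 * len k)) * Real.exp (-(μ / 2 * len k)) := by
      rw [← Real.exp_add]
      congr 1
      ring
    have h3 : Real.exp (μ / 2 * len k) * Real.exp (-(μ / 2 * len k)) = 1 := by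
      rw [← Real.exp_add, add_neg_cancel, Real.exp_zero]
    have h4 : h782.GD.sq k = 8 / μ ^ 2 * ((μ / 2 * len k) ^ 2 / 2) := by
      rw [← len_sq]
      field_simp
      ring
    rw [h2]
    calc h782.GD.sq k * (Real.exp (-(μ / 2 * len k)) * Real.exp (-(μ / 2 * len k)))
        = 8 / μ ^ 2 * ((μ / 2 * len k) ^ 2 / 2 * Real.exp (-(μ / 2 * len k)))
            * Real.exp (-(μ / 2 * len k)) := by rw [h4]; ring
      _ ≤ 8 / μ ^ 2 * 1 * Real.exp (-(μ / 2 * len k)) := by
          apply mul_le_mul_of_nonneg_right _ (Real.exp_pos _).le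
          apply mul_le_mul_of_nonneg_left _ (by positivity)
          rw [← h3]
          exact mul_le_mul_of_nonneg_right h1 (Real.exp_pos _).le
      _ = _ := by ring
  have hsD : Summable fun k : K3 => C * (h782.GD.sq k * Real.exp (-(μ * len k))) := by
    apply Summable.mul_left
    refine Summable.of_nonneg_of_le (fun k => mul_nonneg (sq_nonneg' k) (Real.exp_pos _).le) hexp ?_
    exact (Pool.Agent.Run7.h32.GD.summable_exp (by positivity : 0 < μ / 2)).mul_left _
  have hL1 : ∀ τ, 0 ≤ τ → L1 (a τ) := fun τ hτ =>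
    Summable.of_nonneg_of_le (fun _ => norm_nonneg _) (fun k => hC τ hτ k)
      ((Pool.Agent.Run7.h32.GD.summable_exp hμ).mul_left C)
  have hL3 : ∀ τ, 0 ≤ τ → Summable fun k => h782.GD.sq k * ‖a τ k‖ := fun τ hτ =>
    Summable.of_nonneg_of_le (fun k => mul_nonneg (sq_nonneg' k) (norm_nonneg _)) (fun k => by
      have := mul_le_mul_of_nonneg_left (hC τ hτ k) (sq_nonneg' k)
      linarith) hsD
  have hL2 : ∀ τ, 0 ≤ τ → Summable fun k => len k * ‖a τ k‖ := fun τ hτ =>
    Summable.of_nonneg_of_le (fun k => mul_nonneg (len_nonneg k) (norm_nonneg _)) (fun k => by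
      by_cases hk : k = 0
      · subst hk
        rw [len_zero, sq_zero', zero_mul]
      · have h1 := one_le_len hk
        have h2 : len k ≤ h782.GD.sq k := by
          rw [← len_sq]
          nlinarith
        exact mul_le_mul_of_nonneg_right h2 (norm_nonneg _)) (hL3 τ hτ)
  -- the tails
  obtain ⟨D, hD⟩ : ∃ D : K3 → ℝ, D = fun k => C * (h782.GD.sq k * Real.exp (-(μ * len k))) := ⟨_, rfl⟩
  rw [← hD] at hsD
  have htail : ∀ τ, 0 ≤ τ → ∀ A : Finset K3,
      ∑' k, h782.GD.sq k * ‖a τ k‖ ≤ ∑ k ∈ A, h782.GD.sq k * ‖a τ k‖ + (∑' k, D k - ∑ k ∈ A, D k) := by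
    intro τ hτ A
    have h1 : Summable fun k => D k - h782.GD.sq k * ‖a τ k‖ := hsD.sub (hL3 τ hτ)
    have h2 := h1.sum_le_tsum A fun k _ => by
      have := mul_le_mul_of_nonneg_left (hC τ hτ k) (sq_nonneg' k)
      rw [hD]
      simp only
      linarith
    rw [hsD.tsum_sub (hL3 τ hτ), Finset.sum_sub_distrib] at h2
    linarith
  -- finite sums
  have hmain : ∀ A : Finset K3, ∑ k ∈ A, ‖a t k‖
      ≤ ∑ k ∈ A, ‖a s k‖ + 4 * Real.pi ^ 2 * ν * (∑' k, D k - ∑ k ∈ A, D k) * (t - s) := by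
    intro A
    obtain ⟨e, he⟩ : ∃ e, e = 4 * Real.pi ^ 2 * ν * (∑' k, D k - ∑ k ∈ A, D k) := ⟨_, rfl⟩
    rw [← he]
    have hcont : ∀ k, ContinuousOn (fun τ => a τ k) (Icc s t) := fun k τ hτ =>
      ((hsol.der τ (hs.trans hτ.1) k).continuousWithinAt).mono fun z hz => hs.trans hz.1
    have := image_le_of_liminf_slope_right_le_deriv_boundary
      (f := fun τ => ∑ k ∈ A, ‖a τ k‖) (a := s) (b := t)
      (B := fun τ => ∑ k ∈ A, ‖a s k‖ + e * (τ - s)) (B' := fun _ => e)
      (continuousOn_finsetSum _ fun k _ => (hcont k).norm) (by simp)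
      (by fun_prop) (fun x _ => by
        have h1 : HasDerivAt (fun τ : ℝ => ∑ k ∈ A, ‖a s k‖ + e * (τ - s)) (e * 1) x :=
          (((hasDerivAt_id x).sub_const s).const_mul e).const_add _
        rw [mul_one] at h1
        exact h1.hasDerivWithinAt) ?_ (right_mem_Icc.2 hst)
    · exact this
    · intro x hx r hr
      have hx0 : 0 ≤ x := hs.trans hx.1
      -- the sum of the derivatives
      have h1 : ∑ k ∈ A, (‖nl (a x) (a x) k‖ - lam ν k * ‖a x k‖) ≤ e := by
        have h2 := nl_le_diss (hL1 x hx0) (hL2 x hx0) (hL3 x hx0) (hsol.div x hx0) (hsol.zero x hx0)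
          (hcrit x hx.1) A
        have h3 := htail x hx0 A
        have h4 : 24 * Real.pi * (1 / 2 * ν * ∑' k, h782.GD.sq k * ‖a x k‖)
            ≤ 4 * Real.pi ^ 2 * ν * ∑' k, h782.GD.sq k * ‖a x k‖ := by
          have h5 : 0 ≤ ∑' k, h782.GD.sq k * ‖a x k‖ :=
            tsum_nonneg fun k => mul_nonneg (sq_nonneg' k) (norm_nonneg _)
          have h6 : (12 : ℝ) * Real.pi ≤ 4 * Real.pi ^ 2 := by
            have := Real.pi_gt_three
            nlinarith
          have h7 := mul_le_mul_of_nonneg_right h6 (mul_nonneg hν.le h5)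
          linarith
        have h5 : 4 * Real.pi ^ 2 * ν * ∑' k, h782.GD.sq k * ‖a x k‖
            ≤ 4 * Real.pi ^ 2 * ν * (∑ k ∈ A, h782.GD.sq k * ‖a x k‖ + (∑' k, D k - ∑ k ∈ A, D k)) :=
          mul_le_mul_of_nonneg_left h3 (by positivity)
        have h6 : ∑ k ∈ A, lam ν k * ‖a x k‖ = 4 * Real.pi ^ 2 * ν * ∑ k ∈ A, h782.GD.sq k * ‖a x k‖ := by
          rw [Finset.mul_sum]
          exact Finset.sum_congr rfl fun k _ => by rw [lam]; ring
        rw [Finset.sum_sub_distrib, h6, he]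
        linarith
      obtain ⟨ε, hε⟩ : ∃ ε, ε = (r - e) / (2 * (A.card + 1)) := ⟨_, rfl⟩
      have hε0 : 0 < ε := by
        rw [hε]
        exact div_pos (by linarith) (by positivity)
      have h2 : ∀ᶠ z in 𝓝[>] x, ∀ k ∈ A, ‖a z k‖ - ‖a x k‖
          ≤ (z - x) * (‖nl (a x) (a x) k‖ - lam ν k * ‖a x k‖ + ε) := by
        rw [Filter.eventually_all_finset]
        intro k _
        have hlk : 0 ≤ lam ν k := by
          rw [lam]
          exact mul_nonneg (by positivity) (sq_nonneg' k)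
        exact norm_growth (f := fun τ => a τ k) hlk hx0 hε0 (hsol.der x hx0 k)
      apply Eventually.frequently
      filter_upwards [h2, self_mem_nhdsWithin] with z h3 h4
      have hz : 0 < z - x := sub_pos.2 h4
      rw [slope_def_field, div_lt_iff₀ hz, ← Finset.sum_sub_distrib]
      have h5 : ∑ k ∈ A, (‖a z k‖ - ‖a x k‖)
          ≤ ∑ k ∈ A, (z - x) * (‖nl (a x) (a x) k‖ - lam ν k * ‖a x k‖ + ε) :=
        Finset.sum_le_sum h3
      have h6 : ∑ k ∈ A, (z - x) * (‖nl (a x) (a x) k‖ - lam ν k * ‖a x k‖ + ε)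
          = (z - x) * (∑ k ∈ A, (‖nl (a x) (a x) k‖ - lam ν k * ‖a x k‖) + A.card * ε) := by
        rw [← Finset.mul_sum, Finset.sum_add_distrib, Finset.sum_const, nsmul_eq_mul]
      have h7 : (A.card : ℝ) * ε < r - e := by
        have h8 : ε * (2 * (A.card + 1)) = r - e := by
          rw [hε]
          field_simp
        have h9 : (0 : ℝ) ≤ A.card := Nat.cast_nonneg _
        nlinarith
      calc ∑ k ∈ A, (‖a z k‖ - ‖a x k‖) ≤ (z - x)
            * (∑ k ∈ A, (‖nl (a x) (a x) k‖ - lam ν k * ‖a x k‖) + A.card * ε) := by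
            rw [← h6]
            exact h5
        _ ≤ (z - x) * (e + A.card * ε) :=
            mul_le_mul_of_nonneg_left (by linarith) hz.le
        _ < (z - x) * r := mul_lt_mul_of_pos_left (by linarith) hz
        _ = r * (z - x) := mul_comm _ _
  -- the limit
  have hfin : ∀ A₀ : Finset K3, ∑ k ∈ A₀, ‖a t k‖ ≤ ∑' k, ‖a s k‖ := by
    intro A₀
    have hlim : Tendsto (fun A : Finset K3 => ∑' k, ‖a s k‖
        + 4 * Real.pi ^ 2 * ν * (∑' k, D k - ∑ k ∈ A, D k) * (t - s)) atTop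
        (𝓝 (∑' k, ‖a s k‖ + 4 * Real.pi ^ 2 * ν * (∑' k, D k - ∑' k, D k) * (t - s))) := by
      refine Tendsto.const_add _ (Tendsto.mul_const _ (Tendsto.const_mul _ ?_))
      exact (hsD.hasSum).const_sub _
    rw [sub_self, mul_zero, zero_mul, add_zero] at hlim
    refine ge_of_tendsto hlim ?_
    filter_upwards [eventually_ge_atTop A₀] with A hA
    have h1 : ∑ k ∈ A₀, ‖a t k‖ ≤ ∑ k ∈ A, ‖a t k‖ :=
      Finset.sum_le_sum_of_subset_of_nonneg hA fun k _ _ => norm_nonneg _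
    have h2 := hmain A
    have h3 : ∑ k ∈ A, ‖a s k‖ ≤ ∑' k, ‖a s k‖ :=
      Summable.sum_le_tsum A (fun k _ => norm_nonneg _) (hL1 s hs)
    linarith
  exact Summable.tsum_le_of_sum_le (hL1 t (hs.trans hst)) hfin

end Pool.Agent.Run7.h969.GD
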