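import Pool.Agent.Run7.h969.GD.Tgt2
import Pool.Agent.Run7.h969.GD.Decay
import Pool.Agent.Run7.h782.GS.Defs

/-!
Piece F1: the critical norm becomes and stays small (helper969).
-/

set_option autoImplicit false

open MeasureTheory Set Filter Topology
open scoped ContDiff

namespace Pool.Agent.Run7.h969.GD

open H459R3.NS Pool.Agent.Run7.h782.GD Pool.Agent.Run7.h782.GS

variable {ν : ℝ}

/-- Nonnegative majorants. -/
lemma lsol_maj {U : ℝ → Cf} (h : LSol ν U) (n : ℕ) (T : ℝ) :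
    ∃ A : K3 → ℝ, Summable A ∧ (∀ k, 0 ≤ A k) ∧ ∀ t ∈ Icc 0 T, ∀ k,
      (1 + len k) ^ n * ‖U t k‖ ≤ A k := by
  obtain ⟨A, hA, hb⟩ := h.maj n T
  refine ⟨fun k => |A k|, hA.abs, fun k => abs_nonneg _, fun t ht k => ?_⟩
  exact (hb t ht k).trans (le_abs_self _)

/-- Majorant of `len k ^ j * ‖U t k‖ / len k`-type sums. -/
lemma lsol_maj2 {U : ℝ → Cf} (h : LSol ν U) (T : ℝ) :
    ∃ A : K3 → ℝ, Summable A ∧ (∀ k, 0 ≤ A k) ∧ ∀ t ∈ Icc 0 T, ∀ k,
      ‖U t k‖ / len k ≤ A k ∧ ‖U t k‖ ≤ A k ∧ len k * ‖U t k‖ ≤ A k := by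
  obtain ⟨A, hA, hA0, hb⟩ := lsol_maj h 1 T
  refine ⟨A, hA, hA0, fun t ht k => ?_⟩
  have h1 := hb t ht k
  rw [pow_one] at h1
  have h2 := norm_nonneg (U t k)
  have h3 := len_nonneg k
  have h4 : 0 ≤ len k * ‖U t k‖ := mul_nonneg h3 h2
  refine ⟨?_, by linarith, by linarith⟩
  by_cases hk : k = 0
  · subst hk
    rw [len_zero, div_zero]
    exact hA0 0
  · have h5 := one_le_len hk
    calc ‖U t k‖ / len k ≤ ‖U t k‖ / 1 := div_le_div_of_nonneg_left h2 one_pos h5
      _ = ‖U t k‖ := div_one _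
      _ ≤ A k := by linarith

lemma lsol_cont {U : ℝ → Cf} (h : LSol ν U) (k : K3) : ContinuousOn (fun t => U t k) (Ici 0) :=
  fun t ht => (h.der t ht k).continuousWithinAt

/-- Sums of terms with locally uniform majorants are continuous. -/
lemma cont_tsum {f : K3 → ℝ → ℝ} (hf : ∀ k, ContinuousOn (f k) (Ici 0)) (hf0 : ∀ k t, 0 ≤ f k t)
    (hm : ∀ T : ℝ, ∃ A : K3 → ℝ, Summable A ∧ ∀ t ∈ Icc 0 T, ∀ k, f k t ≤ A k) :
    ContinuousOn (fun t => ∑' k, f k t) (Ici 0) := by
  intro t ht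
  have ht' : (0 : ℝ) ≤ t := ht
  obtain ⟨A, hA, hb⟩ := hm (t + 1)
  have hc : ContinuousOn (fun t => ∑' k, f k t) (Icc 0 (t + 1)) :=
    continuousOn_tsum (fun k => (hf k).mono Icc_subset_Ici_self) hA fun k s hs => by
      rw [Real.norm_eq_abs, abs_of_nonneg (hf0 k s)]
      exact hb s hs k
  have h1 := hc t ⟨ht', by linarith⟩
  refine h1.mono_of_mem_nhdsWithin ?_
  rw [mem_nhdsWithin]
  exact ⟨Iio (t + 1), isOpen_Iio, lt_add_one t, fun s hs => ⟨hs.2, le_of_lt hs.1⟩⟩

/-- The norms of order `-1`, `0`, `1`. -/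
noncomputable def nY (U : ℝ → Cf) (t : ℝ) : ℝ := ∑' k, ‖U t k‖ / len k
noncomputable def nX (U : ℝ → Cf) (t : ℝ) : ℝ := ∑' k, ‖U t k‖
noncomputable def nZ (U : ℝ → Cf) (t : ℝ) : ℝ := ∑' k, len k * ‖U t k‖

lemma nY_cont {U : ℝ → Cf} (h : LSol ν U) : ContinuousOn (nY U) (Ici 0) :=
  cont_tsum (f := fun k t => ‖U t k‖ / len k) (fun k => (lsol_cont h k).norm.div_const _)
    (fun k t => div_nonneg (norm_nonneg _) (len_nonneg k)) fun T => by
      obtain ⟨A, hA, -, hb⟩ := lsol_maj2 h T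
      exact ⟨A, hA, fun t ht k => (hb t ht k).1⟩

lemma nX_cont {U : ℝ → Cf} (h : LSol ν U) : ContinuousOn (nX U) (Ici 0) :=
  cont_tsum (f := fun k t => ‖U t k‖) (fun k => (lsol_cont h k).norm)
    (fun k t => norm_nonneg _) fun T => by
      obtain ⟨A, hA, -, hb⟩ := lsol_maj2 h T
      exact ⟨A, hA, fun t ht k => (hb t ht k).2.1⟩

lemma nZ_cont {U : ℝ → Cf} (h : LSol ν U) : ContinuousOn (nZ U) (Ici 0) :=
  cont_tsum (f := fun k t => len k * ‖U t k‖) (fun k => continuousOn_const.mul (lsol_cont h k).norm)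
    (fun k t => mul_nonneg (len_nonneg k) (norm_nonneg _)) fun T => by
      obtain ⟨A, hA, -, hb⟩ := lsol_maj2 h T
      exact ⟨A, hA, fun t ht k => (hb t ht k).2.2⟩

lemma sum3 {U : ℝ → Cf} (h : LSol ν U) {t : ℝ} (ht : 0 ≤ t) :
    Summable (fun k => ‖U t k‖ / len k) ∧ L1 (U t) ∧ Summable (fun k => len k * ‖U t k‖) := by
  obtain ⟨A, hA, -, hb⟩ := lsol_maj2 h t
  have htt : t ∈ Icc 0 t := ⟨ht, le_rfl⟩
  exact ⟨hA.of_nonneg_of_le (fun k => div_nonneg (norm_nonneg _) (len_nonneg k))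
      fun k => (hb t htt k).1,
    hA.of_nonneg_of_le (fun k => norm_nonneg _) fun k => (hb t htt k).2.1,
    hA.of_nonneg_of_le (fun k => mul_nonneg (len_nonneg k) (norm_nonneg _))
      fun k => (hb t htt k).2.2⟩

/-- Interpolation. -/
lemma interp2 {U : ℝ → Cf} (h : LSol ν U) {t : ℝ} (ht : 0 ≤ t) : nX U t ^ 2 ≤ nY U t * nZ U t := by
  obtain ⟨h1, h2, h3⟩ := sum3 h ht
  have hlim : Tendsto (fun A : Finset K3 => (∑ k ∈ A, ‖U t k‖) ^ 2) atTop (𝓝 (nX U t ^ 2)) :=
    (Summable.hasSum h2).pow 2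
  refine le_of_tendsto' hlim fun A => ?_
  have h4 : (∑ k ∈ A, ‖U t k‖) ^ 2 ≤ (∑ k ∈ A, ‖U t k‖ / len k) * ∑ k ∈ A, len k * ‖U t k‖ := by
    refine Finset.sum_sq_le_sum_mul_sum_of_sq_le_mul A
      (fun k _ => div_nonneg (norm_nonneg _) (len_nonneg k))
      (fun k _ => mul_nonneg (len_nonneg k) (norm_nonneg _)) fun k _ => le_of_eq ?_
    by_cases hk : k = 0
    · subst hk
      rw [h.zero t ht, norm_zero]
      simp
    · have := (len_pos hk).ne'
      field_simp
  refine h4.trans (mul_le_mul ?_ ?_ (Finset.sum_nonneg fun k _ =>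
    mul_nonneg (len_nonneg k) (norm_nonneg _)) (tsum_nonneg fun k =>
      div_nonneg (norm_nonneg _) (len_nonneg k)))
  · exact h1.sum_le_tsum A fun k _ => div_nonneg (norm_nonneg _) (len_nonneg k)
  · exact h3.sum_le_tsum A fun k _ => mul_nonneg (len_nonneg k) (norm_nonneg _)

/-- The nonlinear term in the norm of order `-1`. -/
lemma sum_nl_X {a : Cf} (ha : L1 a) (A : Finset K3) :
    ∑ k ∈ A, ‖nl a a k‖ / len k ≤ 24 * Real.pi * (∑' k, ‖a k‖) ^ 2 := by
  have ha' : Summable fun k => ‖a k‖ := ha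
  have h1 := sum_nl_le (a := a) (b := a) (μ := 0) le_rfl (by simpa using ha') (by simpa using ha') A
  simp only [zero_mul, Real.exp_zero, one_mul] at h1
  rw [pow_two, ← mul_assoc]
  exact h1

/-- The growth of the norm of order `-1`, for finite sets of frequencies. -/
theorem growth_fin {U : ℝ → Cf} (h : LSol ν U) (hν : 0 < ν) {s t : ℝ} (hs : 0 ≤ s) (hst : s ≤ t)
    (A : Finset K3) :
    ∑ k ∈ A, ‖U t k‖ / len k + 4 * Real.pi ^ 2 * ν * ∫ r in s..t, ∑ k ∈ A, len k * ‖U r k‖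
      ≤ ∑ k ∈ A, ‖U s k‖ / len k + 24 * Real.pi * ∫ r in s..t, nX U r ^ 2 := by
  have hcont : ∀ k, ContinuousOn (fun τ => U τ k) (Ici s) := fun k =>
    (lsol_cont h k).mono (Ici_subset_Ici.2 hs)
  obtain ⟨G, hG⟩ : ∃ G : ℝ → ℝ, G = fun r => 24 * Real.pi * nX U r ^ 2
    - 4 * Real.pi ^ 2 * ν * ∑ k ∈ A, len k * ‖U r k‖ := ⟨_, rfl⟩
  have hX : ContinuousOn (fun r => nX U r ^ 2) (Ici s) :=
    ((nX_cont h).mono (Ici_subset_Ici.2 hs)).pow 2
  have hZA : ContinuousOn (fun r => ∑ k ∈ A, len k * ‖U r k‖) (Ici s) :=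
    continuousOn_finsetSum _ fun k _ => continuousOn_const.mul (hcont k).norm
  have hGc : ContinuousOn G (Ici s) := by
    rw [hG]
    exact (continuousOn_const.mul hX).sub (continuousOn_const.mul hZA)
  have hGi : ∀ r, s ≤ r → IntervalIntegrable G volume s r := fun r hr => by
    refine ContinuousOn.intervalIntegrable ?_
    rw [uIcc_of_le hr]
    exact hGc.mono Icc_subset_Ici_self
  have hGd : ∀ r ∈ Ico s t, HasDerivWithinAt (fun r => ∑ k ∈ A, ‖U s k‖ / len k
      + ∫ q in s..r, G q) (G r) (Ici r) r := by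
    intro r hr
    have h1 : HasDerivWithinAt (fun u => ∫ q in s..u, G q) (G r) (Ici r) r := by
      refine intervalIntegral.integral_hasDerivWithinAt_right (hGi r hr.1) ?_ ?_
      · exact (hGc.mono (Ioi_subset_Ici hr.1)).stronglyMeasurableAtFilter_nhdsWithin
          measurableSet_Ioi r
      · exact (hGc r hr.1).mono (Ioi_subset_Ici hr.1)
    exact h1.const_add _
  have hBc : ContinuousOn (fun r => ∑ k ∈ A, ‖U s k‖ / len k + ∫ q in s..r, G q) (Icc s t) := by
    have h1 := intervalIntegral.continuousOn_primitive_interval (μ := volume) (f := G) (a := s)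
      (b := t) (by
        rw [uIcc_of_le hst]
        exact (hGc.mono Icc_subset_Ici_self).integrableOn_Icc)
    rw [uIcc_of_le hst] at h1
    exact continuousOn_const.add h1
  have hmain := image_le_of_liminf_slope_right_le_deriv_boundary
    (f := fun τ => ∑ k ∈ A, ‖U τ k‖ / len k) (a := s) (b := t)
    (B := fun r => ∑ k ∈ A, ‖U s k‖ / len k + ∫ q in s..r, G q) (B' := G)
    (continuousOn_finsetSum _ fun k _ => ((hcont k).mono Icc_subset_Ici_self).norm.div_const _)
    (by simp) hBc hGd ?_ (right_mem_Icc.2 hst)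
  · have e1 : ∫ q in s..t, G q = 24 * Real.pi * (∫ r in s..t, nX U r ^ 2)
        - 4 * Real.pi ^ 2 * ν * ∫ r in s..t, ∑ k ∈ A, len k * ‖U r k‖ := by
      rw [hG, intervalIntegral.integral_sub, intervalIntegral.integral_const_mul,
        intervalIntegral.integral_const_mul]
      · refine ContinuousOn.intervalIntegrable ?_
        rw [uIcc_of_le hst]
        exact (continuousOn_const.mul hX).mono Icc_subset_Ici_self
      · refine ContinuousOn.intervalIntegrable ?_
        rw [uIcc_of_le hst]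
        exact (continuousOn_const.mul hZA).mono Icc_subset_Ici_self
    rw [e1] at hmain
    linarith
  · intro x hx r hr
    have hx0 : 0 ≤ x := hs.trans hx.1
    obtain ⟨ε, hε⟩ : ∃ ε, ε = (r - G x) / (2 * (A.card + 1)) := ⟨_, rfl⟩
    have hε0 : 0 < ε := by
      rw [hε]
      exact div_pos (by linarith) (by positivity)
    have h1 : ∑ k ∈ A, (‖nl (U x) (U x) k‖ - lam ν k * ‖U x k‖) / len k ≤ G x := by
      have h2 := sum_nl_X (sum3 h hx0).2.1 A
      have h3 : ∑ k ∈ A, lam ν k * ‖U x k‖ / len k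
          = 4 * Real.pi ^ 2 * ν * ∑ k ∈ A, len k * ‖U x k‖ := by
        rw [Finset.mul_sum]
        refine Finset.sum_congr rfl fun k _ => ?_
        by_cases hk : k = 0
        · subst hk
          rw [len_zero, div_zero, zero_mul, mul_zero]
        · have h4 := (len_pos hk).ne'
          rw [lam, ← len_sq]
          field_simp
      have h5 : ∑ k ∈ A, (‖nl (U x) (U x) k‖ - lam ν k * ‖U x k‖) / len k
          = ∑ k ∈ A, ‖nl (U x) (U x) k‖ / len k - ∑ k ∈ A, lam ν k * ‖U x k‖ / len k := by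
        rw [← Finset.sum_sub_distrib]
        exact Finset.sum_congr rfl fun k _ => sub_div _ _ _
      rw [h5, h3, hG]
      simp only [nX]
      linarith
    have h2 : ∀ᶠ z in 𝓝[>] x, ∀ k ∈ A, ‖U z k‖ - ‖U x k‖
        ≤ (z - x) * (‖nl (U x) (U x) k‖ - lam ν k * ‖U x k‖ + ε) := by
      rw [Filter.eventually_all_finset]
      intro k _
      have hlk : 0 ≤ lam ν k := by
        rw [lam]
        exact mul_nonneg (by positivity) (sq_nonneg' k)
      exact norm_growth (f := fun τ => U τ k) hlk hx0 hε0 (h.der x hx0 k)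
    apply Eventually.frequently
    filter_upwards [h2, self_mem_nhdsWithin] with z h3 h4
    have hz : 0 < z - x := sub_pos.2 h4
    rw [slope_def_field, div_lt_iff₀ hz, ← Finset.sum_sub_distrib]
    have h5 : ∑ k ∈ A, (‖U z k‖ / len k - ‖U x k‖ / len k)
        ≤ ∑ k ∈ A, (z - x) * ((‖nl (U x) (U x) k‖ - lam ν k * ‖U x k‖) / len k + ε) := by
      refine Finset.sum_le_sum fun k hk => ?_
      rw [← sub_div]
      have h6 := div_le_div_of_nonneg_right (h3 k hk) (len_nonneg k)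
      refine h6.trans ?_
      rw [mul_div_assoc]
      apply mul_le_mul_of_nonneg_left _ hz.le
      rw [add_div]
      apply add_le_add le_rfl
      by_cases hk0 : k = 0
      · subst hk0
        rw [len_zero, div_zero]
        exact hε0.le
      · exact div_le_self hε0.le (one_le_len hk0)
    have h6 : ∑ k ∈ A, (z - x) * ((‖nl (U x) (U x) k‖ - lam ν k * ‖U x k‖) / len k + ε)
        = (z - x) * (∑ k ∈ A, (‖nl (U x) (U x) k‖ - lam ν k * ‖U x k‖) / len k + A.card * ε) := by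
      rw [← Finset.mul_sum, Finset.sum_add_distrib, Finset.sum_const, nsmul_eq_mul]
    have h7 : (A.card : ℝ) * ε < r - G x := by
      have h8 : ε * (2 * (A.card + 1)) = r - G x := by
        rw [hε]
        field_simp
      have h9 : (0 : ℝ) ≤ A.card := Nat.cast_nonneg _
      nlinarith
    calc ∑ k ∈ A, (‖U z k‖ / len k - ‖U x k‖ / len k) ≤ (z - x)
          * (∑ k ∈ A, (‖nl (U x) (U x) k‖ - lam ν k * ‖U x k‖) / len k + A.card * ε) := by
          rw [← h6]
          exact h5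
      _ ≤ (z - x) * (G x + A.card * ε) :=
          mul_le_mul_of_nonneg_left (by linarith) hz.le
      _ < (z - x) * r := mul_lt_mul_of_pos_left (by linarith) hz
      _ = r * (z - x) := mul_comm _ _

/-- The growth of the norm of order `-1`. -/
theorem growth {U : ℝ → Cf} (h : LSol ν U) (hν : 0 < ν) {s t : ℝ} (hs : 0 ≤ s) (hst : s ≤ t) :
    nY U t + 4 * Real.pi ^ 2 * ν * ∫ r in s..t, nZ U r
      ≤ nY U s + 24 * Real.pi * ∫ r in s..t, nX U r ^ 2 := by
  obtain ⟨M, hM, hM0, hMb⟩ := lsol_maj2 h t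
  obtain ⟨c, hc⟩ : ∃ c, c = 1 + 4 * Real.pi ^ 2 * ν * (t - s) := ⟨_, rfl⟩
  have hts : 0 ≤ t - s := sub_nonneg.2 hst
  have key : ∀ A : Finset K3, nY U t + 4 * Real.pi ^ 2 * ν * (∫ r in s..t, nZ U r)
      ≤ (nY U s + 24 * Real.pi * ∫ r in s..t, nX U r ^ 2) + c * (∑' k, M k - ∑ k ∈ A, M k) := by
    intro A
    obtain ⟨e, he⟩ : ∃ e, e = ∑' k, M k - ∑ k ∈ A, M k := ⟨_, rfl⟩
    rw [← he]
    have htl : ∀ f : K3 → ℝ, Summable f → (∀ k, f k ≤ M k) → ∑' k, f k ≤ ∑ k ∈ A, f k + e := by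
      intro f hf hfM
      have h1 : Summable fun k => M k - f k := hM.sub hf
      have h2 := h1.sum_le_tsum A fun k _ => sub_nonneg.2 (hfM k)
      rw [hM.tsum_sub hf, Finset.sum_sub_distrib] at h2
      rw [he]
      linarith
    have h1 := growth_fin h hν hs hst A
    have h2 : nY U t ≤ ∑ k ∈ A, ‖U t k‖ / len k + e :=
      htl _ (sum3 h (hs.trans hst)).1 fun k => (hMb t ⟨hs.trans hst, le_rfl⟩ k).1
    have h3 : ∫ r in s..t, nZ U r ≤ (∫ r in s..t, ∑ k ∈ A, len k * ‖U r k‖) + e * (t - s) := by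
      have hZc : ContinuousOn (nZ U) (Icc s t) :=
        (nZ_cont h).mono fun r hr => hs.trans hr.1
      have hZA : ContinuousOn (fun r => ∑ k ∈ A, len k * ‖U r k‖) (Icc s t) :=
        continuousOn_finsetSum _ fun k _ => continuousOn_const.mul
          ((lsol_cont h k).mono fun r hr => hs.trans hr.1).norm
      have i1 : IntervalIntegrable (nZ U) volume s t :=
        ContinuousOn.intervalIntegrable (by rwa [uIcc_of_le hst])
      have i2 : IntervalIntegrable (fun r => ∑ k ∈ A, len k * ‖U r k‖) volume s t :=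
        ContinuousOn.intervalIntegrable (by rwa [uIcc_of_le hst])
      have h4 := intervalIntegral.integral_mono_on hst i1 (i2.add intervalIntegrable_const)
        (g := fun r => (∑ k ∈ A, len k * ‖U r k‖) + e) fun r hr => by
          have hr0 : 0 ≤ r := hs.trans hr.1
          exact htl _ (sum3 h hr0).2.2 fun k => (hMb r ⟨hr0, hr.2⟩ k).2.2
      rw [intervalIntegral.integral_add i2 intervalIntegrable_const,
        intervalIntegral.integral_const, smul_eq_mul] at h4
      linarith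
    have h4 : ∑ k ∈ A, ‖U s k‖ / len k ≤ nY U s :=
      (sum3 h hs).1.sum_le_tsum A fun k _ => div_nonneg (norm_nonneg _) (len_nonneg k)
    have h5 := mul_le_mul_of_nonneg_left h3 (by positivity : 0 ≤ 4 * Real.pi ^ 2 * ν)
    rw [hc]
    linarith
  have hlim : Tendsto (fun A : Finset K3 => (nY U s + 24 * Real.pi * ∫ r in s..t, nX U r ^ 2)
      + c * (∑' k, M k - ∑ k ∈ A, M k)) atTop
      (𝓝 ((nY U s + 24 * Real.pi * ∫ r in s..t, nX U r ^ 2) + c * (∑' k, M k - ∑' k, M k))) :=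
    Tendsto.const_add _ (Tendsto.const_mul _ ((hM.hasSum).const_sub _))
  rw [sub_self, mul_zero, add_zero] at hlim
  exact ge_of_tendsto' hlim key

lemma nY_nonneg (U : ℝ → Cf) (t : ℝ) : 0 ≤ nY U t :=
  tsum_nonneg fun k => div_nonneg (norm_nonneg _) (len_nonneg k)

lemma nZ_nonneg (U : ℝ → Cf) (t : ℝ) : 0 ≤ nZ U t :=
  tsum_nonneg fun k => mul_nonneg (len_nonneg k) (norm_nonneg _)

/-- A small critical norm stays small, and the norm of order one is integrable. -/
theorem stays_small {U : ℝ → Cf} (h : LSol ν U) (hν : 0 < ν) {s c : ℝ} (hs : 0 ≤ s)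
    (hc : 24 * Real.pi * c ≤ 2 * Real.pi ^ 2 * ν) (hU : nY U s < c) :
    ∀ t, s ≤ t → nY U t ≤ nY U s ∧ 2 * Real.pi ^ 2 * ν * ∫ r in s..t, nZ U r ≤ nY U s := by
  -- the conclusion on an interval where the norm is at most `c`
  have hcon : ∀ t, s ≤ t → (∀ r ∈ Icc s t, nY U r ≤ c) →
      nY U t + 2 * Real.pi ^ 2 * ν * ∫ r in s..t, nZ U r ≤ nY U s := by
    intro t hst hle
    have h1 := growth h hν hs hst
    have hZc : ContinuousOn (nZ U) (Icc s t) := (nZ_cont h).mono fun r hr => hs.trans hr.1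
    have hXc : ContinuousOn (fun r => nX U r ^ 2) (Icc s t) :=
      ((nX_cont h).mono fun r hr => hs.trans hr.1).pow 2
    have i1 : IntervalIntegrable (nZ U) volume s t :=
      ContinuousOn.intervalIntegrable (by rwa [uIcc_of_le hst])
    have i2 : IntervalIntegrable (fun r => nX U r ^ 2) volume s t :=
      ContinuousOn.intervalIntegrable (by rwa [uIcc_of_le hst])
    have h2 : ∫ r in s..t, nX U r ^ 2 ≤ c * ∫ r in s..t, nZ U r := by
      rw [← intervalIntegral.integral_const_mul]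
      refine intervalIntegral.integral_mono_on hst i2 (i1.const_mul _) fun r hr => ?_
      exact (interp2 h (hs.trans hr.1)).trans (mul_le_mul_of_nonneg_right (hle r hr) (nZ_nonneg U r))
    have hZ0 : 0 ≤ ∫ r in s..t, nZ U r := intervalIntegral.integral_nonneg hst fun r _ => nZ_nonneg U r
    have h3 := mul_le_mul_of_nonneg_left h2 (by positivity : 0 ≤ 24 * Real.pi)
    have h4 := mul_le_mul_of_nonneg_right hc hZ0
    linarith
  -- the norm stays below `c`
  have hlt : ∀ t, s ≤ t → nY U t < c := by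
    by_contra hcn
    push Not at hcn
    obtain ⟨t, hst, ht⟩ := hcn
    obtain ⟨B, hB⟩ : ∃ B : Set ℝ, B = {r | r ∈ Icc s t ∧ c ≤ nY U r} := ⟨_, rfl⟩
    have hYc : ContinuousOn (nY U) (Icc s t) := (nY_cont h).mono fun r hr => hs.trans hr.1
    have hBcl : IsClosed B := by
      rw [hB]
      exact hYc.preimage_isClosed_of_isClosed isClosed_Icc isClosed_Ici
    have hBne : B.Nonempty := ⟨t, by rw [hB]; exact ⟨⟨hst, le_rfl⟩, ht⟩⟩
    have hBbd : BddBelow B := ⟨s, fun r hr => by rw [hB] at hr; exact hr.1.1⟩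
    obtain ⟨τ, hτ⟩ : ∃ τ, τ = sInf B := ⟨_, rfl⟩
    have hτB : τ ∈ B := hτ ▸ hBcl.csInf_mem hBne hBbd
    have hτB' := hτB
    rw [hB] at hτB'
    obtain ⟨⟨hτ1, hτ2⟩, hτ3⟩ := hτB'
    have hbelow : ∀ r ∈ Ico s τ, nY U r < c := by
      intro r hr
      by_contra hn
      have h1 : r ∈ B := by
        rw [hB]
        exact ⟨⟨hr.1, hr.2.le.trans hτ2⟩, not_lt.1 hn⟩
      have h2 := csInf_le hBbd h1
      rw [← hτ] at h2
      exact absurd hr.2 (not_lt.2 h2)
    have hsτ : s < τ := by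
      rcases hτ1.eq_or_lt with h1 | h1
      · rw [← h1] at hτ3
        exact absurd hU (not_lt.2 hτ3)
      · exact h1
    have hle : ∀ r ∈ Icc s τ, nY U r ≤ c := by
      have h1 : ContinuousOn (nY U) (Icc s τ) := hYc.mono (Icc_subset_Icc_right hτ2)
      intro r hr
      rcases hr.2.eq_or_lt with h2 | h2
      · rw [h2]
        have h3 : Tendsto (nY U) (𝓝[Ico s τ] τ) (𝓝 (nY U τ)) :=
          (h1 τ ⟨hτ1, le_rfl⟩).mono Ico_subset_Icc_self
        have : (𝓝[Ico s τ] τ).NeBot := by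
          rw [← mem_closure_iff_nhdsWithin_neBot, closure_Ico hsτ.ne]
          exact ⟨hτ1, le_rfl⟩
        refine le_of_tendsto h3 ?_
        filter_upwards [self_mem_nhdsWithin] with q hq
        exact (hbelow q hq).le
      · exact (hbelow r ⟨hr.1, h2⟩).le
    have h1 := hcon τ hτ1 hle
    have h2 : 0 ≤ 2 * Real.pi ^ 2 * ν * ∫ r in s..τ, nZ U r :=
      mul_nonneg (by positivity) (intervalIntegral.integral_nonneg hτ1 fun r _ => nZ_nonneg U r)
    linarith
  intro t hst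
  have h1 := hcon t hst fun r hr => (hlt r hr.1).le
  have h2 : 0 ≤ 2 * Real.pi ^ 2 * ν * ∫ r in s..t, nZ U r :=
    mul_nonneg (by positivity) (intervalIntegral.integral_nonneg hst fun r _ => nZ_nonneg U r)
  have h3 := nY_nonneg U t
  constructor <;> linarith

end Pool.Agent.Run7.h969.GD
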