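import Pool.Agent.Run7.h969.GD.Tgt3

/-!
Piece F1: the critical norm becomes small (helper969).
-/

set_option autoImplicit false

open MeasureTheory Set Filter Topology
open scoped ContDiff

namespace Pool.Agent.Run7.h969.GD

open H459R3.NS Pool.Agent.Run7.h782.GD Pool.Agent.Run7.h782.GS

variable {ν : ℝ} {U : ℝ → V → V} {P : ℝ → V → ℝ}

/-- The enstrophy is small at some time. -/
theorem enst_small (hν : 0 < ν) (h : ∀ T, IsSol ν T U P) {ε : ℝ} (hε : 0 < ε) :
    ∃ s, 0 < s ∧ enstrophy (U s) < ε := by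
  by_contra hcn
  push Not at hcn
  obtain ⟨E, hE⟩ : ∃ E, E = energy (U 0) := ⟨_, rfl⟩
  have hE0 : 0 ≤ E := hE ▸ energy_nonneg _
  obtain ⟨t, ht⟩ : ∃ t, t = E / (2 * ν * ε) + 1 := ⟨_, rfl⟩
  have ht0 : 0 < t := by rw [ht]; positivity
  have hT := h (t + 1)
  have hd : ∀ s ∈ Ioo 0 t, HasDerivAt (fun s => energy (U s) + 2 * ν * ε * s)
      (-(2 * ν * enstrophy (U s)) + 2 * ν * ε * 1) s := fun s hs =>
    (hT.energy_hasDerivAt ⟨hs.1, hs.2.trans (lt_add_one t)⟩).add
      ((hasDerivAt_id s).const_mul (2 * ν * ε))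
  have hc : ContinuousOn (fun s => energy (U s) + 2 * ν * ε * s) (Icc 0 t) :=
    (hT.energy_continuousOn.mono fun s hs => ⟨hs.1, hs.2.trans_lt (lt_add_one t)⟩).add
      (continuousOn_const.mul continuousOn_id)
  have hanti : AntitoneOn (fun s => energy (U s) + 2 * ν * ε * s) (Icc 0 t) := by
    refine antitoneOn_of_deriv_nonpos (convex_Icc 0 t) hc ?_ ?_
    · intro s hs
      rw [interior_Icc] at hs
      exact (hd s hs).differentiableAt.differentiableWithinAt
    · intro s hs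
      rw [interior_Icc] at hs
      rw [(hd s hs).deriv]
      have h1 := mul_le_mul_of_nonneg_left (hcn s hs.1) (by positivity : 0 ≤ 2 * ν)
      linarith
  have h1 := hanti ⟨le_rfl, ht0.le⟩ ⟨ht0.le, le_rfl⟩ ht0.le
  simp only [mul_zero, add_zero] at h1
  have h2 := energy_nonneg (U t)
  have h3 : 2 * ν * ε * t = E + 2 * ν * ε := by
    rw [ht]
    field_simp
  rw [← hE] at h1
  have h4 : 0 < 2 * ν * ε := by positivity
  linarith

lemma N_le_len (k : K3) : (N k : ℝ) ≤ len k := by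
  obtain ⟨j, hj⟩ : ∃ j, N k = (k j).natAbs := by
    obtain ⟨j, -, hj⟩ := Finset.exists_mem_eq_sup (Finset.univ : Finset (Fin 3))
      ⟨0, Finset.mem_univ 0⟩ (fun j => (k j).natAbs)
    exact ⟨j, hj⟩
  have h1 : (N k : ℝ) = |(k j : ℝ)| := by
    rw [hj, ← Int.cast_abs, Int.abs_eq_natAbs]
    simp
  rw [h1]
  exact abs_le_len k j

lemma N_pos {k : K3} (hk : k ≠ 0) : (1 : ℝ) ≤ N k := by
  have h : N k ≠ 0 := by
    intro h0
    apply hk
    funext j
    have h1 := (N_le_iff k 0).1 h0.le j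
    simpa using h1
  exact_mod_cast Nat.one_le_iff_ne_zero.2 h

/-- The critical norm is bounded by the enstrophy. -/
theorem nY_le (h : ∀ T, IsSol ν T U P) (h0 : ∀ i, ∫ x in cube, U 0 x i = 0) {t : ℝ} (ht : 0 ≤ t) :
    nY (fun t => vf (U t)) t ^ 2 ≤ C4 * enstrophy (U t) := by
  have hI : t ∈ Ico 0 (t + 1) := ⟨ht, lt_add_one t⟩
  have hsp : ∀ i, SP (fun y => U t y i) := fun i => (h (t + 1)).sp hI i
  have hb0 : vf (U t) 0 = 0 := zero_vf h h0 ht
  -- the dissipation
  have hdis : ∀ A : Finset K3, ∑ k ∈ A, len k ^ 2 * ‖vf (U t) k‖ ^ 2 ≤ enstrophy (U t) := by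
    intro A
    have h1 : ∀ k : K3, len k ^ 2 * ‖vf (U t) k‖ ^ 2
        ≤ ∑ i, ∑ m, ‖D m (fr fun y => U t y i) k‖ ^ 2 := by
      intro k
      have h2 : ‖vf (U t) k‖ ^ 2 ≤ ∑ i, ‖fr (fun y => U t y i) k‖ ^ 2 := by
        obtain ⟨i, hi⟩ : ∃ i, ‖vf (U t) k‖ = ‖vf (U t) k i‖ := by
          obtain ⟨i, -, hi⟩ := Finset.exists_mem_eq_sup' (s := (Finset.univ : Finset (Fin 3)))
            ⟨0, Finset.mem_univ 0⟩ (fun j => ‖vf (U t) k j‖)
          refine ⟨i, ?_⟩
          rw [← hi]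
          apply le_antisymm
          · refine (pi_norm_le_iff_of_nonneg ?_).2 fun j =>
              Finset.le_sup' (fun j => ‖vf (U t) k j‖) (Finset.mem_univ j)
            exact (norm_nonneg (vf (U t) k 0)).trans
              (Finset.le_sup' (fun j => ‖vf (U t) k j‖) (Finset.mem_univ 0))
          · exact Finset.sup'_le _ _ fun j _ => norm_le_pi_norm _ j
        rw [hi]
        exact Finset.single_le_sum (f := fun i => ‖fr (fun y => U t y i) k‖ ^ 2)
          (fun i _ => sq_nonneg _) (Finset.mem_univ i)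
      calc len k ^ 2 * ‖vf (U t) k‖ ^ 2
          ≤ len k ^ 2 * ∑ i, ‖fr (fun y => U t y i) k‖ ^ 2 :=
            mul_le_mul_of_nonneg_left h2 (sq_nonneg _)
        _ = ∑ i, ∑ m, (k m : ℝ) ^ 2 * ‖fr (fun y => U t y i) k‖ ^ 2 := by
            rw [len_sq, h782.GD.sq, Finset.mul_sum]
            exact Finset.sum_congr rfl fun i _ => Finset.sum_mul _ _ _
        _ ≤ _ := by
            refine Finset.sum_le_sum fun i _ => Finset.sum_le_sum fun m _ => ?_
            rw [D, norm_mul, mul_pow]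
            apply mul_le_mul_of_nonneg_right _ (sq_nonneg _)
            rw [norm_mul, norm_mul, norm_mul, Complex.norm_I, mul_one, Complex.norm_real,
              Real.norm_eq_abs, abs_of_pos Real.pi_pos, Complex.norm_ofNat, Complex.norm_intCast,
              mul_pow, sq_abs]
            have h3 := Real.pi_gt_three
            have h4 : (1 : ℝ) ≤ (2 * Real.pi) ^ 2 := by nlinarith
            calc (k m : ℝ) ^ 2 = 1 * (k m : ℝ) ^ 2 := (one_mul _).symm
              _ ≤ _ := mul_le_mul_of_nonneg_right h4 (sq_nonneg _)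
    calc ∑ k ∈ A, len k ^ 2 * ‖vf (U t) k‖ ^ 2
        ≤ ∑ k ∈ A, ∑ i, ∑ m, ‖D m (fr fun y => U t y i) k‖ ^ 2 := Finset.sum_le_sum fun k _ => h1 k
      _ = ∑ i, ∑ m, ∑ k ∈ A, ‖D m (fr fun y => U t y i) k‖ ^ 2 := by
          rw [Finset.sum_comm]
          exact Finset.sum_congr rfl fun i _ => Finset.sum_comm
      _ ≤ ∑ i, ∑ m, n2 (D m (fr fun y => U t y i)) ^ 2 := by
          refine Finset.sum_le_sum fun i _ => Finset.sum_le_sum fun m _ => ?_
          rw [n2_sq]
          exact (summable_sq ((rap_fr (hsp i)).D m).summable).sum_le_tsum A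
            fun k _ => sq_nonneg _
      _ = enstrophy (U t) := sum_grad (v := fun i y => U t y i) hsp
  have hw : ∀ A : Finset K3, ∑ k ∈ A, 1 / len k ^ 4 ≤ C4 := by
    intro A
    refine le_trans (Finset.sum_le_sum fun k _ => ?_)
      (summable_N4.sum_le_tsum A fun k _ => by split_ifs <;> positivity)
    by_cases hk : k = 0
    · subst hk
      simp
    · rw [if_neg hk]
      have h1 := N_pos hk
      exact one_div_le_one_div_of_le (by positivity)
        (pow_le_pow_left₀ (by linarith) (N_le_len k) 4)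
  have hE0 := enstrophy_nonneg (U t)
  have hs : Summable fun k => ‖vf (U t) k‖ / len k := by
    refine Summable.of_nonneg_of_le (fun k => div_nonneg (norm_nonneg _) (len_nonneg k))
      (fun k => ?_) (L1_vf h ht)
    by_cases hk : k = 0
    · subst hk
      rw [len_zero, div_zero]
      exact norm_nonneg _
    · exact div_le_self (norm_nonneg _) (one_le_len hk)
  have hlim : Tendsto (fun A : Finset K3 => (∑ k ∈ A, ‖vf (U t) k‖ / len k) ^ 2) atTop
      (𝓝 (nY (fun t => vf (U t)) t ^ 2)) := (hs.hasSum).pow 2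
  refine le_of_tendsto' hlim fun A => ?_
  have h1 : (∑ k ∈ A, ‖vf (U t) k‖ / len k) ^ 2
      ≤ (∑ k ∈ A, len k ^ 2 * ‖vf (U t) k‖ ^ 2) * ∑ k ∈ A, 1 / len k ^ 4 := by
    refine Finset.sum_sq_le_sum_mul_sum_of_sq_le_mul A (fun k _ => by positivity)
      (fun k _ => by positivity) fun k _ => le_of_eq ?_
    by_cases hk : k = 0
    · subst hk
      rw [hb0]
      simp
    · have := (len_pos hk).ne'
      field_simp
  calc (∑ k ∈ A, ‖vf (U t) k‖ / len k) ^ 2 ≤ _ := h1
    _ ≤ enstrophy (U t) * C4 := mul_le_mul (hdis A) (hw A)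
        (Finset.sum_nonneg fun k _ => by positivity) hE0
    _ = _ := mul_comm _ _

/-- The critical norm is small at some time. -/
theorem late (hν : 0 < ν) (h : ∀ T, IsSol ν T U P) (h0 : ∀ i, ∫ x in cube, U 0 x i = 0) {c : ℝ}
    (hc : 0 < c) : ∃ s, 0 ≤ s ∧ nY (fun t => vf (U t)) s < c := by
  have hC := C4_nonneg
  obtain ⟨s, hs, hE⟩ := enst_small hν h (ε := c ^ 2 / (C4 + 1)) (by positivity)
  refine ⟨s, hs.le, ?_⟩
  have h1 := nY_le h h0 hs.le
  have h2 : C4 * enstrophy (U s) < c ^ 2 := by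
    rw [lt_div_iff₀ (by positivity)] at hE
    have h3 : 0 ≤ enstrophy (U s) := enstrophy_nonneg _
    nlinarith
  exact lt_of_pow_lt_pow_left₀ 2 hc.le (h1.trans_lt h2)

/-- The coefficients of a smooth solution with mean zero. -/
theorem lsol (h : ∀ T, IsSol ν T U P) (h0 : ∀ i, ∫ x in cube, U 0 x i = 0) :
    LSol ν (fun t => vf (U t)) where
  zero := fun _ ht => zero_vf h h0 ht
  herm := fun t _ => herm_vf (U t)
  div := fun _ ht => dv_vf h ht
  der := fun _ ht k => der_vf h ht k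
  maj := fun n T => by
    obtain ⟨A, hA, -, hb⟩ := maj_vf h n T
    exact ⟨A, hA, hb⟩

/-- **Piece F1 from piece P1.** -/
theorem stmTg (hInt : StmInt) : StmTg := by
  obtain ⟨c₀, hc₀, H⟩ := hInt
  intro ν hν U P h h0
  have hL := lsol h h0
  obtain ⟨c, hc⟩ : ∃ c, c = min (c₀ * ν) (Real.pi * ν / 12) := ⟨_, rfl⟩
  have hc0 : 0 < c := by rw [hc]; exact lt_min (by positivity) (by positivity)
  have hc1 : c ≤ c₀ * ν := by rw [hc]; exact min_le_left _ _
  have hc2 : 24 * Real.pi * c ≤ 2 * Real.pi ^ 2 * ν := by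
    have h1 : c ≤ Real.pi * ν / 12 := by rw [hc]; exact min_le_right _ _
    have h2 := mul_le_mul_of_nonneg_left h1 (by positivity : 0 ≤ 24 * Real.pi)
    linarith
  obtain ⟨s, hs, hY⟩ := late hν h h0 hc0
  refine H ν hν _ hL ⟨s, hs, fun t hst A => ?_⟩
  have h1 := (stays_small hL hν hs hc2 hY t hst).1
  have h2 := (sum3 hL (hs.trans hst)).1.sum_le_tsum A fun k _ =>
    div_nonneg (norm_nonneg _) (len_nonneg k)
  exact h2.trans (h1.trans (hY.le.trans hc1))

end Pool.Agent.Run7.h969.GD
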